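import Pool.Agent.Y110.FJ.Stm

/-!
The criterion for extensions with locally realized conjugations.
-/

set_option autoImplicit false

namespace Pool.Agent.Y110.FJ

open Pool.Agent.Y462.SS (Closed)

/-- the group `N` is in `C` as soon as all its finitely generated subgroups are -/
theorem c_of_fg {C : ∀ (G : Type) [Group G], Prop} (hC : Closed C) (L : Type) [Group L]
    (h : ∀ E : Finset L, C ↥(Subgroup.closure (E : Set L))) : C L := by
  classical
  refine hC.colim (Finset L) (fun i j => ⟨i ∪ j, Finset.subset_union_left, Finset.subset_union_right⟩)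
    (fun E => ↥(Subgroup.closure (E : Set L)))
    (fun i j hij => Subgroup.inclusion (Subgroup.closure_mono (Finset.coe_subset.2 hij))) L
    (fun E => (Subgroup.closure (E : Set L)).subtype) ?_ ?_ ?_ ?_ ?_ h
  · intro i hi x; rfl
  · intro i j k hij hjk x; rfl
  · intro i j hij x; rfl
  · intro y
    exact ⟨{y}, ⟨y, Subgroup.subset_closure (by simp)⟩, rfl⟩
  · intro i x hx
    refine ⟨i, le_rfl, ?_⟩
    have : x = 1 := Subtype.ext hx
    rw [this, map_one]

theorem t_crit (h : S_COL) (h' : S_EXT) : S_CRIT := by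
  intro C hC G _ N _ hQ hR
  refine h' C hC G N ?_ hQ (fun g hg => h C hC G N g hg (hR g))
  apply c_of_fg hC.base
  intro E
  obtain ⟨P, _, f, p, hP, hf, -⟩ := hR 1 (((↑) : N → G) '' (E : Set N)) (E.finite_toSet.image _)
    (by rintro _ ⟨x, -, rfl⟩; exact x.2)
  let j : ↥(Subgroup.closure (E : Set N)) →* ↥(Subgroup.closure
      ((((↑) : N → G) '' (E : Set N)) ∪ (fun x => (1 : G) * x * 1⁻¹) '' (((↑) : N → G) '' (E : Set N)))) :=
    { toFun := fun x => ⟨((x : N) : G), by
        have h1 : (Subgroup.closure (E : Set N)).map N.subtype ≤ Subgroup.closure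
            ((((↑) : N → G) '' (E : Set N)) ∪ (fun x => (1 : G) * x * 1⁻¹) '' (((↑) : N → G) '' (E : Set N))) := by
          rw [MonoidHom.map_closure]
          exact Subgroup.closure_mono Set.subset_union_left
        exact h1 ⟨x, x.2, rfl⟩⟩
      map_one' := rfl
      map_mul' := fun _ _ => rfl }
  refine hC.base.of_injective _ P (f.comp j) ?_ hP
  intro x y hxy
  have h1 : j x = j y := hf hxy
  have h2 : ((x : N) : G) = ((y : N) : G) := by
    have h3 := congrArg Subtype.val h1
    exact h3
  exact Subtype.ext (Subtype.ext h2)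

end Pool.Agent.Y110.FJ
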