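import Pool.Agent.Y462.SS.Base

/-!
# Membership in the class of Farrell-Jones groups: definitions and statements

Owner helper110. The class `C` of groups is closed under subgroups, finite products, free products,
overgroups of finite index, directed colimits (`Closed`, helper462) and satisfies the extension
criterion of the Farrell-Jones conjecture (`ClosedE`).
-/

set_option autoImplicit false

namespace Pool.Agent.Y110.FJ

open Pool.Agent.Y462.SS (Closed)

/-- A class of groups with the closure properties `Closed` and the extension criterion: if `Q` is in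
`C` and the preimages of all virtually cyclic subgroups of `Q` are in `C`, then so is `G`. -/
structure ClosedE (C : ∀ (G : Type) [Group G], Prop) : Prop where
  base : Closed C
  ext : ∀ (G Q : Type) [Group G] [Group Q] (π : G →* Q), Function.Surjective π → C Q →
    (∀ V : Subgroup Q, (∃ c ∈ V, (Subgroup.zpowers c).relIndex V ≠ 0) → C (V.comap π)) → C G

/-- the extension criterion with infinite cyclic subgroups -/
def S_EXT : Prop := ∀ C : ∀ (G : Type) [Group G], Prop, ClosedE C →
  ∀ (G : Type) [Group G] (N : Subgroup G) [N.Normal], C N → C (G ⧸ N) →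
    (∀ g : G, (∀ n : ℕ, 0 < n → g ^ n ∉ N) → C ↥(N ⊔ Subgroup.zpowers g)) → C G

/-- the action on the free group on a set with an action -/
noncomputable def permAut (X P : Type) [Group P] [MulAction P X] : P →* MulAut (FreeGroup X) where
  toFun p := FreeGroup.freeGroupCongr (MulAction.toPerm p)
  map_one' := by
    apply MulEquiv.toMonoidHom_injective
    apply FreeGroup.ext_hom
    intro x
    simp
  map_mul' p q := by
    apply MulEquiv.toMonoidHom_injective
    apply FreeGroup.ext_hom
    intro x
    simp [mul_smul]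

/-- `F(X) ⋊ P` for an action of `P` on the set `X` -/
def S_PERM : Prop := ∀ C : ∀ (G : Type) [Group G], Prop, ClosedE C →
  ∀ (X P : Type) [Group P] [MulAction P X], C P → C (FreeGroup X ⋊[permAut X P] P)

/-- HNN extensions with a homomorphism to a group in `C` which is injective on the base -/
def S_HNN : Prop := ∀ C : ∀ (G : Type) [Group G], Prop, ClosedE C →
  ∀ (M P : Type) [Group M] [Group P] (A B : Subgroup M) (φ : A ≃* B) (f : HNNExtension M A B φ →* P),
    Function.Injective (f.comp HNNExtension.of) → C P → C (HNNExtension M A B φ)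

/-- `G` is the amalgamated product of its subgroups `A` and `B` over their common subgroup `K` -/
structure Amg {G : Type} [Group G] (A B K : Subgroup G) : Prop where
  le_left : K ≤ A
  le_right : K ≤ B
  gen : A ⊔ B = ⊤
  univ : ∀ (H : Type) [Group H] (f : A →* H) (g : B →* H),
    (∀ (c : G) (hc : c ∈ K), f ⟨c, le_left hc⟩ = g ⟨c, le_right hc⟩) →
    ∃ h : G →* H, (∀ a : A, h a = f a) ∧ (∀ b : B, h b = g b)

/-- amalgamated products with a homomorphism to a group in `C` which is injective on both factors -/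
def S_AM : Prop := ∀ C : ∀ (G : Type) [Group G], Prop, ClosedE C →
  ∀ (G P : Type) [Group G] [Group P] (A B K : Subgroup G), Amg A B K → ∀ f : G →* P,
    (∀ a ∈ A, f a = 1 → a = 1) → (∀ b ∈ B, f b = 1 → b = 1) → C P → C G

/-- conjugation by `g` on the finite set `E` is realized in a group in `C` -/
def Realized (C : ∀ (G : Type) [Group G], Prop) {G : Type} [Group G] (g : G) (E : Set G) : Prop :=
  ∃ (P : Type) (_ : Group P) (f : ↥(Subgroup.closure (E ∪ (fun x => g * x * g⁻¹) '' E)) →* P) (p : P),
    C P ∧ Function.Injective f ∧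
    ∀ x y : ↥(Subgroup.closure (E ∪ (fun x => g * x * g⁻¹) '' E)),
      (x : G) ∈ E → (y : G) = g * x * g⁻¹ → f y = p * f x * p⁻¹

/-- **the criterion** -/
def S_CRIT : Prop := ∀ C : ∀ (G : Type) [Group G], Prop, ClosedE C →
  ∀ (G : Type) [Group G] (N : Subgroup G) [N.Normal], C (G ⧸ N) →
    (∀ (g : G) (E : Set G), E.Finite → E ⊆ N → Realized C g E) → C G

/-- the part of the criterion for one element -/
def S_COL : Prop := ∀ C : ∀ (G : Type) [Group G], Prop, ClosedE C →
  ∀ (G : Type) [Group G] (N : Subgroup G) [N.Normal] (g : G), (∀ n : ℕ, 0 < n → g ^ n ∉ N) →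
    (∀ E : Set G, E.Finite → E ⊆ N → Realized C g E) → C ↥(N ⊔ Subgroup.zpowers g)

/-- kernels on which the group acts locally by automorphisms of finite order modulo inner ones -/
def S_INN : Prop := ∀ C : ∀ (G : Type) [Group G], Prop, ClosedE C →
  ∀ (G : Type) [Group G] (N : Subgroup G) [N.Normal], C N → C (G ⧸ N) →
    (∀ (g : G) (E : Set N), E.Finite → ∃ (σ : MulAut N) (k : ℕ) (n : N), 0 < k ∧
      σ ^ k = MulAut.conj n ∧ ∀ x ∈ E, ((σ x : N) : G) = g * (x : G) * g⁻¹) → C G

/-- semidirect products given by permutations of a set `Ω` on which `N` depends in a finitary way -/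
def S_NOM : Prop := ∀ C : ∀ (G : Type) [Group G], Prop, ClosedE C →
  ∀ (Ω N Q : Type) [Group N] [Group Q] (α : Equiv.Perm Ω →* MulAut N) (ρ : Q →* Equiv.Perm Ω),
    (∀ n : N, ∃ S : Set Ω, S.Finite ∧ ∀ π : Equiv.Perm Ω, (∀ s ∈ S, π s = s) → α π n = n) →
    C N → C Q → C (N ⋊[α.comp ρ] Q)

/-! ### graph products -/

section GP

variable {V : Type}

/-- the commutation relations -/
def commRel (Λ : SimpleGraph V) (A : V → Type) [∀ v, Group (A v)] : Set (Monoid.CoprodI A) :=
  {r | ∃ (v w : V) (a : A v) (b : A w), Λ.Adj v w ∧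
    r = Monoid.CoprodI.of a * Monoid.CoprodI.of b * (Monoid.CoprodI.of a)⁻¹ * (Monoid.CoprodI.of b)⁻¹}

/-- the graph product of the groups `A v` -/
abbrev GrP (Λ : SimpleGraph V) (A : V → Type) [∀ v, Group (A v)] : Type :=
  Monoid.CoprodI A ⧸ Subgroup.normalClosure (commRel Λ A)

/-- the inclusion of a vertex group -/
def GrP.of (Λ : SimpleGraph V) (A : V → Type) [∀ v, Group (A v)] (v : V) : A v →* GrP Λ A :=
  (QuotientGroup.mk' _).comp Monoid.CoprodI.of

/-- an automorphism of a graph product with equal vertex groups permutes the vertex groups like `g` -/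
def IsPerm (Λ : SimpleGraph V) (A : Type) [Group A] (g : V ≃ V)
    (σ : MulAut (GrP Λ (fun _ => A))) : Prop :=
  ∀ v (a : A), σ (GrP.of Λ (fun _ => A) v a) = GrP.of Λ (fun _ => A) (g v) a

end GP

/-- graph products -/
def S_GP : Prop := ∀ C : ∀ (G : Type) [Group G], Prop, ClosedE C →
  ∀ (V : Type) (Λ : SimpleGraph V) (A : V → Type) [∀ v, Group (A v)], (∀ v, C (A v)) → C (GrP Λ A)

/-- a partial isomorphism of a finite graph is induced by an automorphism of a finite larger graph -/
def S_EPPA : Prop := ∀ (S : Type) (_ : Finite S) (Λ : SimpleGraph S) (D : Set S) (f : D → S),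
  Function.Injective f → (∀ x y : D, Λ.Adj (f x) (f y) ↔ Λ.Adj x y) →
  ∃ (T : Type) (_ : Finite T) (Λ' : SimpleGraph T) (ι : S → T) (τ : Equiv.Perm T),
    Function.Injective ι ∧ (∀ x y, Λ'.Adj (ι x) (ι y) ↔ Λ.Adj x y) ∧
    (∀ x y, Λ'.Adj (τ x) (τ y) ↔ Λ'.Adj x y) ∧ ∀ x : D, τ (ι x) = ι (f x)

/-- **graph-wreath products**: `G` is the semidirect product of a graph product of copies of `A` and a
group `Q` which acts by automorphisms of the graph -/
def S_GW : Prop := ∀ C : ∀ (G : Type) [Group G], Prop, ClosedE C →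
  ∀ (V Q A : Type) [Group Q] [Group A] [MulAction Q V] (Λ : SimpleGraph V)
    (α : Q →* MulAut (GrP Λ (fun _ => A))), (∀ (q : Q) (v w : V), Λ.Adj v w → Λ.Adj (q • v) (q • w)) →
    (∀ q : Q, IsPerm Λ A (MulAction.toPerm q) (α q)) →
    C A → C Q → C (GrP Λ (fun _ => A) ⋊[α] Q)

end Pool.Agent.Y110.FJ
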