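import Pool.Agent.Y110.FJ.Stm

/-!
# Artin groups: statements

Owner helper110.
-/

set_option autoImplicit false

namespace Pool.Agent.Y110.FJ

/-- the alternating word `a b a b ...` with `n` factors -/
def alt {G : Type} [Group G] : ℕ → G → G → G
  | 0, _, _ => 1
  | n + 1, a, b => a * alt n b a

/-- the relations of the Artin group of the matrix `M`; the value `0` stands for infinity -/
def artinRel {V : Type} (M : V → V → ℕ) : Set (FreeGroup V) :=
  {r | ∃ v w : V, v ≠ w ∧
    r = alt (M v w) (FreeGroup.of v) (FreeGroup.of w) * (alt (M v w) (FreeGroup.of w) (FreeGroup.of v))⁻¹}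

/-- the Artin group of the matrix `M` -/
abbrev ArtinG {V : Type} (M : V → V → ℕ) : Type := FreeGroup V ⧸ Subgroup.normalClosure (artinRel M)

/-- the matrix restricted to the generators with colours in `σ` -/
abbrev restr {V K : Type} (M : V → V → ℕ) (κ : V → K) (σ : Finset K) :
    {v // κ v ∈ σ} → {v // κ v ∈ σ} → ℕ := fun v w => M v w

/-- **Artin groups**: if all labels between generators of different colours are even or infinite,
the Artin group is in `C` as soon as its parabolic subgroups on finite sets of pairwise linked colours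
are; two colours are linked if there is a finite label between them -/
def S_ART : Prop := ∀ C : ∀ (G : Type) [Group G], Prop, ClosedE C →
  ∀ (V K : Type) (M : V → V → ℕ) (κ : V → K), (∀ v w, M v w = M w v) → (∀ v w, κ v ≠ κ w → Even (M v w)) →
    (∀ σ : Finset K, (∀ a ∈ σ, ∀ b ∈ σ, a ≠ b → ∃ v w, κ v = a ∧ κ w = b ∧ M v w ≠ 0) →
      C (ArtinG (restr M κ σ))) → C (ArtinG M)

end Pool.Agent.Y110.FJ
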