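import Pool.Agent.Y110.FJ.Gwp
import Pool.Agent.Y529.FJ.Ext
import Pool.Agent.Y961.FJ.Perm
import Pool.Agent.Y576.FJ.Hnn
import Pool.Agent.Y417.FJ.Am
import Pool.Agent.Y497.FJ.Col
import Pool.Agent.Y467.FJ.Inn
import Pool.Agent.Y467.FJ.Loc
import Pool.Agent.Y50.FJ.Gp
import Pool.Agent.Y929.FJ.Art
import Pool.Agent.Y70.FJ.Two

/-!
The statements of project FJ, without hypotheses.
-/

set_option autoImplicit false

namespace Pool.Agent.Y110.FJ

theorem perm_ : S_PERM := Pool.Agent.Y961.FJ.t_perm Pool.Agent.Y529.FJ.t_ext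

theorem hnn_ : S_HNN := Pool.Agent.Y576.FJ.t_hnn perm_

theorem am_ : S_AM := Pool.Agent.Y417.FJ.t_am perm_

theorem crit_ : S_CRIT := t_crit (Pool.Agent.Y497.FJ.t_col hnn_) Pool.Agent.Y529.FJ.t_ext

theorem inn_ : S_INN := Pool.Agent.Y467.FJ.t_inn crit_

theorem nom_ : S_NOM := Pool.Agent.Y467.FJ.t_nom inn_

theorem loc_ : S_LOC := Pool.Agent.Y467.FJ.t_loc am_

theorem gp_ : S_GP := Pool.Agent.Y50.FJ.t_gp loc_

theorem gw_ : S_GW := t_gw crit_ gp_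

theorem art_ : S_ART := Pool.Agent.Y929.FJ.t_art loc_

theorem two_ : S_TWO := Pool.Agent.Y70.FJ.t_two' inn_

end Pool.Agent.Y110.FJ
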