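import Pool.Agent.Y110.FJ.Tgp

/-!
Extensions of graph products whose vertex groups are permuted: the main step.
-/

set_option autoImplicit false

namespace Pool.Agent.Y110.FJ

open Pool.Agent.Y462.SS (Closed)
open Pool.Agent.Y261.FJ

theorem map_prod_conj {G K : Type} [Group G] [Group K] (A : Subgroup G) (H : Subgroup K) (g : G) :
    (A.prod H).map (MulAut.conj ((g, 1) : G × K)).toMonoidHom =
      (A.map (MulAut.conj g).toMonoidHom).prod H := by
  ext ⟨x, y⟩
  simp only [Subgroup.mem_map, Subgroup.mem_prod, Prod.exists]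
  constructor
  · rintro ⟨a, b, ⟨ha, hb⟩, h⟩
    have h1 : g * a * g⁻¹ = x := congrArg Prod.fst h
    have h2 : 1 * b * 1⁻¹ = y := congrArg Prod.snd h
    refine ⟨⟨a, ha, h1⟩, ?_⟩
    rw [one_mul, inv_one, mul_one] at h2
    exact h2 ▸ hb
  · rintro ⟨⟨a, ha, h1⟩, h2⟩
    have h1 : g * a * g⁻¹ = x := h1
    refine ⟨a, y, ⟨ha, h2⟩, ?_⟩
    refine Prod.ext h1 ?_
    show 1 * y * 1⁻¹ = y
    rw [one_mul, inv_one, mul_one]

theorem c_prod_sub {C : ∀ (G : Type) [Group G], Prop} (hC : Closed C) {G K : Type} [Group G] [Group K]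
    (A : Subgroup G) (H : Subgroup K) (hA : C A) (hH : C H) : C ↥(A.prod H) :=
  hC.of_injective _ _ (Subgroup.prodEquiv A H).toMonoidHom (Subgroup.prodEquiv A H).injective
    (hC.prod _ _ hA hH)

theorem c_pi_sub {C : ∀ (G : Type) [Group G], Prop} (hC : Closed C) {G V : Type} [Group G]
    (A : V → Subgroup G) (hA : ∀ v, C (A v)) (U : Finset V) (K : V → Subgroup G)
    (hK : ∀ v ∈ U, K v ≤ A v) (hK' : ∀ v, v ∉ U → K v = ⊥) :
    C ↥(Subgroup.pi Set.univ K) := by
  refine hC.of_injective _ _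
    { toFun := fun x => fun v : U => (⟨x.1 v.1, hK v.1 v.2 (x.2 v.1 (Set.mem_univ _))⟩ : A v.1)
      map_one' := rfl
      map_mul' := fun _ _ => rfl } ?_
    (Pool.Agent.Y50.FJ.pi_mem C hC (fun v => ↥(A v)) hA U)
  intro x y hxy
  apply Subtype.ext
  funext v
  by_cases hv : v ∈ U
  · exact congrArg Subtype.val (congrFun hxy ⟨v, hv⟩)
  · have hx : (x : V → G) v ∈ K v := x.2 v (Set.mem_univ _)
    have hy : (y : V → G) v ∈ K v := y.2 v (Set.mem_univ _)
    rw [hK' v hv, Subgroup.mem_bot] at hx hy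
    rw [hx, hy]

theorem of_congr {G T : Type} [Group G] (Λ : SimpleGraph T) (B : T → Subgroup G) {s t : T} (h : s = t)
    (b : B s) (b' : B t) (hb : (b : G) = b') :
    GrP.of Λ (fun t => ↥(B t)) s b = GrP.of Λ (fun t => ↥(B t)) t b' := by
  subst h
  rw [Subtype.ext hb]

section emb

variable {G V : Type} [Group G] {Q : Subgroup G} [MulAction Q V]

open Classical in
/-- the embedding of the vertex group `A v` in the new vertex group -/
noncomputable def emb (q : Q) (r : V → V) (n : V → ℤ) (v : V) : G →* G × (V → G) :=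
  if FO q v then MonoidHom.inl G (V → G)
  else (MonoidHom.inr G (V → G)).comp ((MonoidHom.mulSingle (fun _ : V => G) (r v)).comp
    (MulAut.conj ((q : G) ^ (-(n v)))).toMonoidHom)

open Classical in
/-- the retraction to the vertex group `A v` -/
noncomputable def unemb (q : Q) (r : V → V) (n : V → ℤ) (v : V) : G × (V → G) →* G :=
  if FO q v then MonoidHom.fst G (V → G)
  else (MulAut.conj ((q : G) ^ (n v))).toMonoidHom.comp
    ((Pi.evalMonoidHom (fun _ : V => G) (r v)).comp (MonoidHom.snd G (V → G)))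

theorem emb_fin {q : Q} {r : V → V} {n : V → ℤ} {v : V} (h : FO q v) (x : G) :
    emb q r n v x = (x, 1) := by
  unfold emb
  rw [if_pos h]
  rfl

open Classical in
theorem emb_inf {q : Q} {r : V → V} {n : V → ℤ} {v : V} (h : ¬ FO q v) (x : G) :
    emb q r n v x = (1, Pi.mulSingle (r v) ((q : G) ^ (-(n v)) * x * ((q : G) ^ (-(n v)))⁻¹)) := by
  unfold emb
  rw [if_neg h]
  refine Prod.ext rfl ?_
  funext u
  show (MonoidHom.mulSingle (fun _ : V => G) (r v)) ((q : G) ^ (-(n v)) * x * ((q : G) ^ (-(n v)))⁻¹) u = _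
  rw [MonoidHom.mulSingle_apply]

theorem unemb_fin {q : Q} {r : V → V} {n : V → ℤ} {v : V} (h : FO q v) (x : G × (V → G)) :
    unemb q r n v x = x.1 := by
  unfold unemb
  rw [if_pos h]
  rfl

theorem unemb_inf {q : Q} {r : V → V} {n : V → ℤ} {v : V} (h : ¬ FO q v) (x : G × (V → G)) :
    unemb q r n v x = (q : G) ^ (n v) * x.2 (r v) * ((q : G) ^ (n v))⁻¹ := by
  unfold unemb
  rw [if_neg h]
  rfl

theorem unemb_emb (q : Q) (r : V → V) (n : V → ℤ) (v : V) (x : G) :
    unemb q r n v (emb q r n v x) = x := by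
  classical
  by_cases h : FO q v
  · rw [unemb_fin h, emb_fin h]
  · rw [unemb_inf h, emb_inf h]
    have h1 : ((1, Pi.mulSingle (r v) ((q : G) ^ (-(n v)) * x * ((q : G) ^ (-(n v)))⁻¹)) :
        G × (V → G)).2 (r v) = (q : G) ^ (-(n v)) * x * ((q : G) ^ (-(n v)))⁻¹ := by
      show Pi.mulSingle (r v) _ (r v) = _
      rw [Pi.mulSingle_eq_same]
    rw [h1]
    group

theorem emb_conj {q : Q} {r : V → V} {n : V → ℤ} (hr : ∀ v, r (q • v) = r v)
    (hn : ∀ v, ¬ FO q v → n (q • v) = n v + 1) (v : V) (x : G) :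
    emb q r n (q • v) ((q : G) * x * (q : G)⁻¹) =
      ((q : G), 1) * emb q r n v x * ((q : G), 1)⁻¹ := by
  classical
  by_cases h : FO q v
  · rw [emb_fin h.smul, emb_fin h]
    refine Prod.ext rfl ?_
    show (1 : V → G) = 1 * 1 * 1⁻¹
    simp
  · rw [emb_inf (fun h' => h (FO.of_smul h')), emb_inf h, hr, hn v h]
    refine Prod.ext ?_ ?_
    · show (1 : G) = q * 1 * (q : G)⁻¹
      simp
    · show Pi.mulSingle (r v) _ = 1 * Pi.mulSingle (r v) _ * 1⁻¹
      rw [one_mul, inv_one, mul_one]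
      congr 1
      group

end emb

theorem realized_q (hinj : S_INJ) (hsig : S_SIG) (htw : S_TW) (heppa : S_EPPA)
    {C : ∀ (G : Type) [Group G], Prop} (hC : ClosedE C) {G V : Type} [Group G] {N Q : Subgroup G}
    [MulAction Q V] {Λ : SimpleGraph V} {A : V → Subgroup G}
    (f : GrP Λ (fun v => ↥(A v)) →* G)
    (hf : ∀ (v : V) (a : A v), f (GrP.of Λ (fun v => ↥(A v)) v a) = a)
    (hfi : Function.Injective f) (hfr : f.range = N)
    (hadj : ∀ (q : Q) (v w : V), Λ.Adj v w → Λ.Adj (q • v) (q • w))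
    (hA : ∀ (q : Q) (v : V), A (q • v) = (A v).map (MulAut.conj (q : G)).toMonoidHom)
    (hst : ∀ (v : V) (q : Q), q • v = v → C ↥(A v ⊔ Subgroup.zpowers (q : G)))
    (q : Q) (E : Set G) (hE : E.Finite) (hEN : E ⊆ N) : Realized C (q : G) E := by
  classical
  have hCA : ∀ v, C (A v) := fun v => hC.base.of_injective _ _ (Subgroup.inclusion le_sup_left)
    (Subgroup.inclusion_injective _) (hst v 1 (one_smul _ v))
  have hAmem : ∀ (q : Q) (v : V) (x : G), x ∈ A v → (q : G) * x * (q : G)⁻¹ ∈ A (q • v) := by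
    intro q v x hx
    rw [hA]
    exact ⟨x, hx, rfl⟩
  have hAz : ∀ (v : V) (m : ℤ) (x : G), x ∈ A v →
      (q : G) ^ m * x * ((q : G) ^ m)⁻¹ ∈ A (q ^ m • v) := by
    intro v m x hx
    have h1 := hAmem (q ^ m) v x hx
    rwa [Subgroup.coe_zpow] at h1
  obtain ⟨r, n, hrn, hrq, hnq⟩ := exists_coord (V := V) q
  have hadj' : ∀ (v w : V), Λ.Adj (q • v) (q • w) ↔ Λ.Adj v w := by
    intro v w
    refine ⟨fun hh => ?_, hadj q v w⟩
    have := hadj q⁻¹ _ _ hh
    rwa [inv_smul_smul, inv_smul_smul] at this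
  -- the finite set of vertices
  obtain ⟨S00, hS00, hS00E⟩ := exists_gc_finite (Λ := Λ) (A := fun v => ↥(A v))
    (hE.preimage hfi.injOn : (f ⁻¹' E).Finite)
  obtain ⟨S0, hS0, hS00S0, hS0q⟩ := exists_complete q S00 hS00
  obtain ⟨S, hSdef⟩ : ∃ S : Set V, S = S0 ∪ (fun v => q • v) '' S0 := ⟨_, rfl⟩
  have hSfin : S.Finite := by rw [hSdef]; exact hS0.union (hS0.image _)
  have hS0S : ∀ v ∈ S0, v ∈ S := fun v hv => by rw [hSdef]; exact Or.inl hv
  have hqS : ∀ v ∈ S0, q • v ∈ S := fun v hv => by rw [hSdef]; exact Or.inr ⟨v, hv, rfl⟩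
  have hSf : ∀ v ∈ S, FO q v → v ∈ S0 := by
    intro v hv hf
    rw [hSdef] at hv
    rcases hv with hv | ⟨w, hw, rfl⟩
    · exact hv
    · exact hS0q w hw (FO.of_smul hf)
  have : Finite S := hSfin
  obtain ⟨T, hT, Λ', ι, τ, hι, hιadj, hτ, hτι⟩ := heppa S inferInstance
    (Λ.induce S) {x | (x : V) ∈ S0} (fun x => ⟨q • (x.1 : V), hqS _ x.2⟩)
    (by
      intro x y hxy
      have h1 : q • ((x.1 : S) : V) = q • ((y.1 : S) : V) := congrArg Subtype.val hxy
      exact Subtype.ext (Subtype.ext ((MulAction.injective q) h1)))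
    (by
      intro x y
      exact hadj' _ _)
  have := hT
  -- iterating
  have hpow0 : ∀ (i : ℕ) (v : V), v ∈ S0 → FO q v → q ^ i • v ∈ S0 ∧ FO q (q ^ i • v) := by
    intro i v hv hf
    induction i with
    | zero => rw [pow_zero, one_smul]; exact ⟨hv, hf⟩
    | succ i ih =>
      rw [pow_succ', mul_smul]
      exact ⟨hS0q _ ih.1 ih.2, ih.2.smul⟩
  have hpow : ∀ (i : ℕ) (s : S), FO q (s : V) → ∃ s' : S, (s' : V) = q ^ i • (s : V) ∧
      (τ ^ i) (ι s) = ι s' := by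
    intro i s hf
    have hs := hSf _ s.2 hf
    induction i with
    | zero => exact ⟨s, by rw [pow_zero, one_smul], by simp⟩
    | succ i ih =>
      obtain ⟨s', h1, h2⟩ := ih
      have h3 : (s' : V) ∈ S0 := by rw [h1]; exact (hpow0 i _ hs hf).1
      refine ⟨⟨q • (s' : V), hqS _ h3⟩, ?_, ?_⟩
      · show q • (s' : V) = _
        rw [h1, pow_succ', mul_smul]
      · rw [pow_succ', Equiv.Perm.mul_apply, h2]
        exact hτι ⟨s', h3⟩
  -- the new vertex groups
  obtain ⟨U, hU⟩ : ∃ U : Finset V, ∀ v ∈ S, r v ∈ U :=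
    ⟨(hSfin.image r).toFinset, fun v hv => (hSfin.image r).mem_toFinset.2 ⟨v, hv, rfl⟩⟩
  let HH : Subgroup (V → G) := Subgroup.pi Set.univ (fun u => if u ∈ U then A u else ⊥)
  have hCH : C HH := c_pi_sub hC.base A hCA U _ (fun v hv => by rw [if_pos hv])
    (fun v hv => by rw [if_neg hv])
  obtain ⟨B, hBdef⟩ : ∃ B : T → Subgroup (G × (V → G)), ∀ t, B t =
      if h : ∃ s : S, ι s = t ∧ FO q (s : V) then (A (h.choose : V)).prod ⊥
      else (⊥ : Subgroup G).prod HH := ⟨_, fun t => rfl⟩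
  have hB1 : ∀ s : S, FO q (s : V) → B (ι s) = (A (s : V)).prod ⊥ := by
    intro s hs
    have h : ∃ s' : S, ι s' = ι s ∧ FO q (s' : V) := ⟨s, rfl, hs⟩
    rw [hBdef, dif_pos h]
    have h1 : h.choose = s := hι h.choose_spec.1
    rw [h1]
  have hB2 : ∀ t, (¬ ∃ s : S, ι s = t ∧ FO q (s : V)) → B t = (⊥ : Subgroup G).prod HH := by
    intro t ht
    rw [hBdef, dif_neg ht]
  have hB3 : ∀ s : S, ¬ FO q (s : V) → B (ι s) = (⊥ : Subgroup G).prod HH := by
    intro s hs
    apply hB2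
    rintro ⟨s', h1, h2⟩
    rw [hι h1] at h2
    exact hs h2
  -- the conjugating element
  have hBτ : ∀ t, B (τ t) = (B t).map (MulAut.conj (((q : G), 1) : G × (V → G))).toMonoidHom := by
    intro t
    by_cases h : ∃ s : S, ι s = t ∧ FO q (s : V)
    · obtain ⟨s, rfl, hs⟩ := h
      obtain ⟨s', h1, h2⟩ := hpow 1 s hs
      rw [pow_one] at h1 h2
      have hs' : FO q (s' : V) := by rw [h1]; exact hs.smul
      rw [h2, hB1 s hs, hB1 s' hs', map_prod_conj, h1, hA]
    · have h' : ¬ ∃ s : S, ι s = τ t ∧ FO q (s : V) := by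
        rintro ⟨s, h1, h2⟩
        apply h
        have hs0 := hSf _ s.2 h2
        obtain ⟨k, hk, hkv⟩ := h2
        obtain ⟨k, rfl⟩ : ∃ k', k = k' + 1 := ⟨k - 1, by omega⟩
        have hf : FO q (s : V) := ⟨k + 1, hk, hkv⟩
        obtain ⟨h3, h4⟩ := hpow0 k _ hs0 hf
        refine ⟨⟨q ^ k • (s : V), hS0S _ h3⟩, ?_, h4⟩
        apply τ.injective
        rw [← h1]
        have h5 := hτι ⟨⟨q ^ k • (s : V), hS0S _ h3⟩, h3⟩
        rw [h5]
        congr 1
        apply Subtype.ext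
        show q • (q ^ k • (s : V)) = s
        rw [← mul_smul, ← pow_succ', hkv]
      rw [hB2 t h, hB2 _ h', map_prod_conj, Subgroup.map_bot]
  have hBst : ∀ (t : T) (k : ℕ), 0 < k → (τ ^ k) t = t →
      C ↥(B t ⊔ Subgroup.zpowers ((((q : G), 1) : G × (V → G)) ^ k)) := by
    intro t k hk hkt
    by_cases h : ∃ s : S, ι s = t ∧ FO q (s : V)
    · obtain ⟨s, rfl, hs⟩ := h
      obtain ⟨s', h1, h2⟩ := hpow k s hs
      have h3 : s' = s := hι (h2.symm.trans hkt)
      rw [h3] at h1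
      have h4 := hst (s : V) (q ^ k) h1.symm
      rw [Subgroup.coe_pow] at h4
      have h5 : B (ι s) ⊔ Subgroup.zpowers ((((q : G), 1) : G × (V → G)) ^ k) ≤
          (A (s : V) ⊔ Subgroup.zpowers ((q : G) ^ k)).prod ⊥ := by
        rw [hB1 s hs, sup_le_iff, Subgroup.zpowers_le]
        refine ⟨fun x hx => ⟨Subgroup.mem_sup_left hx.1, hx.2⟩, ?_⟩
        refine ⟨Subgroup.mem_sup_right (Subgroup.mem_zpowers _), ?_⟩
        show (1 : V → G) ^ k ∈ (⊥ : Subgroup (V → G))
        rw [one_pow]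
        exact Subgroup.one_mem _
      exact hC.base.of_injective _ _ (Subgroup.inclusion h5) (Subgroup.inclusion_injective _)
        (c_prod_sub hC.base _ _ h4 (Pool.Agent.Y430.SS.of_finite hC.base _ inferInstance))
    · have h5 : B t ⊔ Subgroup.zpowers ((((q : G), 1) : G × (V → G)) ^ k) ≤
          (Subgroup.zpowers (q : G)).prod HH := by
        rw [hB2 t h, sup_le_iff, Subgroup.zpowers_le]
        refine ⟨fun x hx => ⟨?_, hx.2⟩, ?_⟩
        · have h6 : x.1 = 1 := hx.1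
          rw [h6]
          exact Subgroup.one_mem _
        · refine ⟨⟨(k : ℤ), by simp⟩, ?_⟩
          show (1 : V → G) ^ k ∈ HH
          rw [one_pow]
          exact Subgroup.one_mem _
      exact hC.base.of_injective _ _ (Subgroup.inclusion h5) (Subgroup.inclusion_injective _)
        (c_prod_sub hC.base _ _ (c_zpowers hC.base _) hCH)
  -- the embeddings of the vertex groups
  have hE1 : ∀ (s : S) (x : G), x ∈ A (s : V) → emb q r n (s : V) x ∈ B (ι s) := by
    intro s x hx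
    by_cases h : FO q (s : V)
    · rw [hB1 s h, emb_fin h]
      exact ⟨hx, Subgroup.one_mem _⟩
    · rw [hB3 s h, emb_inf h]
      refine ⟨Subgroup.one_mem _, ?_⟩
      intro u _
      show (Pi.mulSingle (r (s : V)) ((q : G) ^ (-(n (s : V))) * x * ((q : G) ^ (-(n (s : V))))⁻¹) :
        V → G) u ∈ (if u ∈ U then A u else ⊥)
      by_cases hu : u = r (s : V)
      · subst hu
        rw [Pi.mulSingle_eq_same, if_pos (hU _ s.2)]
        have h1 := hAz (s : V) (-(n (s : V))) x hx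
        have h2 : q ^ (-(n (s : V))) • (s : V) = r (s : V) := by
          rw [zpow_neg, inv_smul_eq_iff, hrn]
        rwa [h2] at h1
      · rw [Pi.mulSingle_eq_of_ne hu]
        exact Subgroup.one_mem _
  have hE2 : ∀ (s : S) (y : G × (V → G)), y ∈ B (ι s) → unemb q r n (s : V) y ∈ A (s : V) := by
    intro s y hy
    by_cases h : FO q (s : V)
    · rw [hB1 s h] at hy
      rw [unemb_fin h]
      exact hy.1
    · rw [hB3 s h] at hy
      rw [unemb_inf h]
      have h1 : y.2 (r (s : V)) ∈ (if r (s : V) ∈ U then A (r (s : V)) else ⊥) :=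
        hy.2 (r (s : V)) (Set.mem_univ _)
      rw [if_pos (hU _ s.2)] at h1
      have h2 := hAz (r (s : V)) (n (s : V)) _ h1
      rwa [hrn] at h2
  let φ : ∀ s : S, ↥(A (s : V)) →* ↥(B (ι s)) := fun s =>
    ((emb q r n (s : V)).comp (A (s : V)).subtype).codRestrict (B (ι s)) (fun x => hE1 s x x.2)
  let ψ : ∀ s : S, ↥(B (ι s)) →* ↥(A (s : V)) := fun s =>
    ((unemb q r n (s : V)).comp (B (ι s)).subtype).codRestrict (A (s : V)) (fun x => hE2 s x x.2)
  have hψφ : ∀ (s : S) (a : A (s : V)), ψ s (φ s a) = a := fun s a =>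
    Subtype.ext (unemb_emb q r n (s : V) (a : G))
  obtain ⟨J, hJ, hJi⟩ := hinj S T (Λ.induce S) Λ' (fun s : S => ↥(A (s : V))) (fun t => ↥(B t)) ι φ ψ
    hι hιadj hψφ
  obtain ⟨I, hI, hIi⟩ := hinj S V (Λ.induce S) Λ (fun s : S => ↥(A (s : V))) (fun v => ↥(A v))
    Subtype.val (fun s => MonoidHom.id _) (fun s => MonoidHom.id _) Subtype.val_injective
    (fun _ _ => Iff.rfl) (fun _ _ => rfl)
  obtain ⟨σ, hσ⟩ := hsig (G × (V → G)) T Λ' B τ ((q : G), 1) hτ hBτ
  have hP := htw C hC (G × (V → G)) T Λ' B τ ((q : G), 1) hτ hBτ hBst σ hσ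
  have hFi : Function.Injective (f.comp I) := hfi.comp hIi
  have hF : ∀ (s : S) (a : A (s : V)),
      (f.comp I) (GrP.of (Λ.induce S) (fun s : S => ↥(A (s : V))) s a) = a := by
    intro s a
    rw [MonoidHom.comp_apply, hI, hf]
    rfl
  -- elements of `E`
  have hEy : ∀ x ∈ E, ∃ y ∈ gc (Λ.induce S) (fun s : S => ↥(A (s : V))) {s | (s : V) ∈ S0},
      (f.comp I) y = x := by
    intro x hx
    have h1 : x ∈ f.range := by rw [hfr]; exact hEN hx
    obtain ⟨z, rfl⟩ := h1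
    have h2 : z ∈ gc Λ (fun v => ↥(A v)) S00 := hS00E hx
    have h3 : ∃ y ∈ gc (Λ.induce S) (fun s : S => ↥(A (s : V))) {s | (s : V) ∈ S0}, I y = z := by
      clear hx
      refine Subgroup.closure_induction (p := fun z _ => ∃ y ∈ gc (Λ.induce S)
        (fun s : S => ↥(A (s : V))) {s | (s : V) ∈ S0}, I y = z) ?_ ?_ ?_ ?_ h2
      · rintro z ⟨v, hv, a, rfl⟩
        refine ⟨GrP.of (Λ.induce S) (fun s : S => ↥(A (s : V))) ⟨v, hS0S v (hS00S0 hv)⟩ a,
          of_mem_gc (Λ := Λ.induce S) (A := fun s : S => ↥(A (s : V))) (S := {s | (s : V) ∈ S0})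
            (v := ⟨v, hS0S v (hS00S0 hv)⟩) (hS00S0 hv) a, ?_⟩
        rw [hI]
        rfl
      · exact ⟨1, Subgroup.one_mem _, map_one _⟩
      · rintro x y _ _ ⟨x', hx', rfl⟩ ⟨y', hy', rfl⟩
        exact ⟨x' * y', Subgroup.mul_mem _ hx' hy', map_mul _ _ _⟩
      · rintro x _ ⟨x', hx', rfl⟩
        exact ⟨x'⁻¹, Subgroup.inv_mem _ hx', map_inv _ _⟩
    obtain ⟨y, hy, rfl⟩ := h3
    exact ⟨y, hy, rfl⟩
  have hconj : ∀ y ∈ gc (Λ.induce S) (fun s : S => ↥(A (s : V))) {s | (s : V) ∈ S0},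
      ∃ y', (f.comp I) y' = (q : G) * (f.comp I) y * (q : G)⁻¹ ∧ J y' = σ (J y) := by
    intro y hy
    refine Subgroup.closure_induction (p := fun y _ => ∃ y', (f.comp I) y' =
      (q : G) * (f.comp I) y * (q : G)⁻¹ ∧ J y' = σ (J y)) ?_ ?_ ?_ ?_ hy
    · rintro y ⟨s, hs, a, rfl⟩
      have hs : (s : V) ∈ S0 := hs
      have h1 : (q : G) * a * (q : G)⁻¹ ∈ A (q • (s : V)) := hAmem q _ _ a.2
      refine ⟨GrP.of (Λ.induce S) (fun s : S => ↥(A (s : V))) ⟨q • (s : V), hqS _ hs⟩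
        ⟨(q : G) * a * (q : G)⁻¹, h1⟩, ?_, ?_⟩
      · rw [hF, hF]
      · rw [hJ, hJ]
        have h2 : τ (ι s) = ι ⟨q • (s : V), hqS _ hs⟩ := hτι ⟨s, hs⟩
        have h3 : emb q r n (q • (s : V)) ((q : G) * a * (q : G)⁻¹) ∈ B (τ (ι s)) := by
          rw [h2]
          exact hE1 ⟨q • (s : V), hqS _ hs⟩ _ h1
        rw [hσ (ι s) (φ s a) ⟨_, h3⟩ (emb_conj hrq hnq (s : V) (a : G))]
        exact of_congr Λ' B h2.symm _ _ rfl
    · exact ⟨1, by simp, by simp⟩
    · rintro x y _ _ ⟨x', hx1, hx2⟩ ⟨y', hy1, hy2⟩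
      refine ⟨x' * y', ?_, ?_⟩
      · rw [map_mul, map_mul, hx1, hy1]
        group
      · rw [map_mul, map_mul, map_mul, hx2, hy2]
    · rintro x _ ⟨x', hx1, hx2⟩
      refine ⟨x'⁻¹, ?_, ?_⟩
      · rw [map_inv, map_inv, hx1]
        group
      · rw [map_inv, map_inv, map_inv, hx2]
  -- the final map
  have hle : Subgroup.closure (E ∪ (fun x => (q : G) * x * (q : G)⁻¹) '' E) ≤ (f.comp I).range := by
    rw [Subgroup.closure_le]
    rintro x (hx | ⟨x, hx, rfl⟩)
    · obtain ⟨y, -, hy⟩ := hEy x hx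
      exact ⟨y, hy⟩
    · obtain ⟨y, hy1, hy⟩ := hEy x hx
      obtain ⟨y', hy', -⟩ := hconj y hy1
      rw [hy] at hy'
      exact ⟨y', hy'⟩
  refine ⟨_, inferInstance, SemidirectProduct.inl.comp (J.comp
    ((MonoidHom.ofInjective hFi).symm.toMonoidHom.comp (Subgroup.inclusion hle))),
    SemidirectProduct.inr (Multiplicative.ofAdd 1), hP, ?_, ?_⟩
  · exact SemidirectProduct.inl_injective.comp (hJi.comp
      ((MonoidHom.ofInjective hFi).symm.injective.comp (Subgroup.inclusion_injective hle)))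
  · intro x y hx hy
    obtain ⟨z, hz1, hz⟩ := hEy x hx
    obtain ⟨z', hz', hz2⟩ := hconj z hz1
    have h1 : (MonoidHom.ofInjective hFi).symm (Subgroup.inclusion hle x) = z := by
      rw [MulEquiv.symm_apply_eq]
      apply Subtype.ext
      exact hz.symm
    have h2 : (MonoidHom.ofInjective hFi).symm (Subgroup.inclusion hle y) = z' := by
      rw [MulEquiv.symm_apply_eq]
      apply Subtype.ext
      show (y : G) = (f.comp I) z'
      rw [hz', hz, hy]
    show SemidirectProduct.inl (J ((MonoidHom.ofInjective hFi).symm (Subgroup.inclusion hle y))) =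
      SemidirectProduct.inr (Multiplicative.ofAdd 1) *
        SemidirectProduct.inl (J ((MonoidHom.ofInjective hFi).symm (Subgroup.inclusion hle x))) *
        (SemidirectProduct.inr (Multiplicative.ofAdd 1))⁻¹
    rw [h1, h2, hz2, ← map_inv, ← SemidirectProduct.inl_aut]
    congr 1

theorem t_tgp (hcrit : S_CRIT) (hinj : S_INJ) (hsig : S_SIG) (htw : S_TW) (heppa : S_EPPA) :
    S_TGP := by
  intro C hC G V _ N Q _ _ Λ A ⟨f, hf, hfi, hfr⟩ hNQ hadj hA hCQ hst
  refine hcrit C hC G N hCQ ?_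
  intro g E hE hEN
  have hg : g ∈ ((N ⊔ Q : Subgroup G) : Set G) := by rw [hNQ]; exact Subgroup.mem_top g
  rw [Subgroup.normal_mul] at hg
  obtain ⟨m, hm, q, hq, rfl⟩ := hg
  exact realized_mul hm (fun E hE hEN => realized_q hinj hsig htw heppa hC f hf hfi hfr hadj hA hst
    ⟨q, hq⟩ E hE hEN) E hE hEN

end Pool.Agent.Y110.FJ
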