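import Pool.Agent.Y110.FJ.Stm

/-!
# Graph products with twisted permutations of the vertex groups: statements

Owner helper110.
-/

set_option autoImplicit false

namespace Pool.Agent.Y110.FJ

open Pool.Agent.Y462.SS (Closed)

/-- graph products extended by a group which preserves every vertex group -/
def S_RGP : Prop := ∀ C : ∀ (G : Type) [Group G], Prop, ClosedE C →
  ∀ (V Q : Type) (Λ : SimpleGraph V) (A : V → Type) [∀ v, Group (A v)] [Group Q]
    (α : Q →* MulAut (GrP Λ A)) (θ : ∀ v, Q →* MulAut (A v)),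
    (∀ q v a, α q (GrP.of Λ A v a) = GrP.of Λ A v (θ v q a)) →
    C Q → (∀ v, C (A v ⋊[θ v] Q)) → C (GrP Λ A ⋊[α] Q)

/-- full subgraphs and retracts of the vertex groups give injective maps of graph products -/
def S_INJ : Prop := ∀ (V W : Type) (Λ : SimpleGraph V) (Λ' : SimpleGraph W) (A : V → Type) (B : W → Type)
  [∀ v, Group (A v)] [∀ w, Group (B w)] (j : V → W) (φ : ∀ v, A v →* B (j v)) (r : ∀ v, B (j v) →* A v),
  Function.Injective j → (∀ v w, Λ'.Adj (j v) (j w) ↔ Λ.Adj v w) → (∀ v a, r v (φ v a) = a) →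
  ∃ f : GrP Λ A →* GrP Λ' B, (∀ v a, f (GrP.of Λ A v a) = GrP.of Λ' B (j v) (φ v a)) ∧
    Function.Injective f

/-- a permutation of the vertices and conjugation by `g` induce an automorphism of the graph product
of subgroups of a group -/
def S_SIG : Prop := ∀ (G T : Type) [Group G] (Λ : SimpleGraph T) (B : T → Subgroup G) (τ : Equiv.Perm T)
  (g : G), (∀ s t, Λ.Adj (τ s) (τ t) ↔ Λ.Adj s t) →
    (∀ t, B (τ t) = (B t).map (MulAut.conj g).toMonoidHom) →
    ∃ σ : MulAut (GrP Λ (fun t => ↥(B t))), ∀ (t : T) (b : B t) (b' : B (τ t)), (b' : G) = g * b * g⁻¹ →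
      σ (GrP.of Λ (fun t => ↥(B t)) t b) = GrP.of Λ (fun t => ↥(B t)) (τ t) b'

/-- the mapping torus of such an automorphism -/
def S_TW : Prop := ∀ C : ∀ (G : Type) [Group G], Prop, ClosedE C →
  ∀ (G T : Type) [Group G] [Finite T] (Λ : SimpleGraph T) (B : T → Subgroup G) (τ : Equiv.Perm T)
  (g : G), (∀ s t, Λ.Adj (τ s) (τ t) ↔ Λ.Adj s t) →
    (∀ t, B (τ t) = (B t).map (MulAut.conj g).toMonoidHom) →
    (∀ (t : T) (k : ℕ), 0 < k → (τ ^ k) t = t → C ↥(B t ⊔ Subgroup.zpowers (g ^ k))) →
    ∀ σ : MulAut (GrP Λ (fun t => ↥(B t))), (∀ (t : T) (b : B t) (b' : B (τ t)),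
      (b' : G) = g * b * g⁻¹ →
      σ (GrP.of Λ (fun t => ↥(B t)) t b) = GrP.of Λ (fun t => ↥(B t)) (τ t) b') →
    C (GrP Λ (fun t => ↥(B t)) ⋊[zpowersHom (MulAut (GrP Λ (fun t => ↥(B t)))) σ] Multiplicative ℤ)

/-- the subgroup `N` of `G` is the graph product of its subgroups `A v` -/
def IsGP {G V : Type} [Group G] (Λ : SimpleGraph V) (A : V → Subgroup G) (N : Subgroup G) : Prop :=
  ∃ f : GrP Λ (fun v => ↥(A v)) →* G, (∀ (v : V) (a : A v), f (GrP.of Λ (fun v => ↥(A v)) v a) = a) ∧
    Function.Injective f ∧ f.range = N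

/-- **extensions of graph products**: the normal subgroup `N` is the graph product of its subgroups
`A v`, and the subgroup `Q` with `N Q = G` permutes the vertex groups -/
def S_TGP : Prop := ∀ C : ∀ (G : Type) [Group G], Prop, ClosedE C →
  ∀ (G V : Type) [Group G] (N Q : Subgroup G) [N.Normal] [MulAction Q V] (Λ : SimpleGraph V)
    (A : V → Subgroup G), IsGP Λ A N → N ⊔ Q = ⊤ →
    (∀ (q : Q) (v w : V), Λ.Adj v w → Λ.Adj (q • v) (q • w)) →
    (∀ (q : Q) (v : V), A (q • v) = (A v).map (MulAut.conj (q : G)).toMonoidHom) →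
    C (G ⧸ N) → (∀ (v : V) (q : Q), q • v = v → C ↥(A v ⊔ Subgroup.zpowers (q : G))) → C G

/-! ### functors on labelled graphs -/

/-- a partial isomorphism of a finite labelled graph extends to an automorphism of a finite larger
labelled graph; the value of `c` on the diagonal is a label of the vertex -/
def S_EPPAL : Prop := ∀ (L S : Type) (_ : Finite S) (c : S → S → L) (D : Set S) (f : D → S),
  (∀ x y, c x y = c y x) → Function.Injective f → (∀ x y : D, c (f x) (f y) = c x y) →
  ∃ (T : Type) (_ : Finite T) (c' : T → T → L) (ι : S → T) (τ : Equiv.Perm T),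
    Function.Injective ι ∧ (∀ x y, c' x y = c' y x) ∧ (∀ x y, c' (ι x) (ι y) = c x y) ∧
    (∀ x y, c' (τ x) (τ y) = c' x y) ∧ ∀ x : D, τ (ι x) = ι (f x)

/-- a functor from labelled graphs and embeddings onto full subgraphs to groups and injective
homomorphisms, such that every element comes from a finite subgraph -/
structure LGF (L : Type) where
  F : ∀ V : Type, (V → V → L) → Type
  grp : ∀ (V : Type) (m : V → V → L), Group (F V m)
  mp : ∀ {V W : Type} (m : V → V → L) (m' : W → W → L) (j : V → W), Function.Injective j →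
    (∀ v w, m' (j v) (j w) = m v w) → F V m →* F W m'
  mp_inj : ∀ {V W : Type} (m : V → V → L) (m' : W → W → L) (j : V → W) (hj : Function.Injective j)
    (h : ∀ v w, m' (j v) (j w) = m v w), (∀ v w, m' v w = m' w v) → Function.Injective (mp m m' j hj h)
  mp_id : ∀ {V : Type} (m : V → V → L) (x : F V m),
    mp m m id Function.injective_id (fun _ _ => rfl) x = x
  mp_comp : ∀ {U V W : Type} (m : U → U → L) (m' : V → V → L) (m'' : W → W → L) (i : U → V) (j : V → W)
    (hi : Function.Injective i) (hj : Function.Injective j) (h : ∀ v w, m' (i v) (i w) = m v w)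
    (h' : ∀ v w, m'' (j v) (j w) = m' v w) (x : F U m),
    mp m' m'' j hj h' (mp m m' i hi h x) =
      mp m m'' (j ∘ i) (hj.comp hi) (fun v w => (h' (i v) (i w)).trans (h v w)) x
  fin : ∀ {V : Type} (m : V → V → L) (x : F V m), ∃ S : Set V, S.Finite ∧
    ∃ y : F S (fun v w => m v w), mp (fun v w : S => m v w) m Subtype.val Subtype.val_injective
      (fun _ _ => rfl) y = x

attribute [instance] LGF.grp

/-- **functors on labelled graphs**: if the values on finite graphs are in `C`, so are all the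
semidirect products `F(V) ⋊ Q` for groups `Q` in `C` acting on a labelled graph `V` -/
def S_LGF : Prop := ∀ C : ∀ (G : Type) [Group G], Prop, ClosedE C → ∀ (L : Type) (Φ : LGF L),
  (∀ (T : Type) (_ : Finite T) (m : T → T → L), (∀ v w, m v w = m w v) → C (Φ.F T m)) →
  ∀ (V Q : Type) [Group Q] [MulAction Q V] (m : V → V → L), (∀ v w, m v w = m w v) →
    ∀ (hm : ∀ (q : Q) v w, m (q • v) (q • w) = m v w) (α : Q →* MulAut (Φ.F V m)),
    (∀ (q : Q) (x : Φ.F V m), α q x = Φ.mp m m (fun v => q • v) (MulAction.injective q) (hm q) x) →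
    C Q → C (Φ.F V m ⋊[α] Q)

/-- parabolic subgroups of Coxeter groups of arbitrary rank -/
def S_COXI : Prop := ∀ (V W : Type) (M : CoxeterMatrix V) (M' : CoxeterMatrix W) (j : V → W),
  Function.Injective j → (∀ v w, M' (j v) (j w) = M v w) → ∀ f : M.Group →* M'.Group,
    (∀ v, f (M.simple v) = M'.simple (j v)) → Function.Injective f

/-- **Coxeter groups of arbitrary rank**, extended by groups of diagram automorphisms -/
def S_COX : Prop := ∀ C : ∀ (G : Type) [Group G], Prop, ClosedE C →
  (∀ (T : Type) (_ : Finite T) (M : CoxeterMatrix T), C M.Group) →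
  ∀ (V Q : Type) [Group Q] [MulAction Q V] (M : CoxeterMatrix V) (α : Q →* MulAut M.Group),
    (∀ (q : Q) v w, M (q • v) (q • w) = M v w) → (∀ (q : Q) v, α q (M.simple v) = M.simple (q • v)) →
    C Q → C (M.Group ⋊[α] Q)

end Pool.Agent.Y110.FJ
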