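import Pool.Agent.Y110.FJ.All
import Pool.Agent.Y110.FJ.Tgq
import Pool.Agent.Y872.FJ.Inj
import Pool.Agent.Y86.FJ.Sig
import Pool.Agent.Y232.FJ.TW
import Pool.Agent.Y978.FJ.Rgp
import Pool.Agent.Y312.FJ.Eppal
import Pool.Agent.Y447.FJ.Lgf
import Pool.Agent.Y70.FJ.Coxi
import Pool.Agent.Y220.FJ.Cox

/-!
The statements of project FJ, part 4, without hypotheses.
-/

set_option autoImplicit false

namespace Pool.Agent.Y110.FJ

theorem rgp_ : S_RGP := Pool.Agent.Y978.FJ.t_rgp am_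

theorem tgp_ : S_TGP := t_tgp crit_ Pool.Agent.Y872.FJ.t_inj Pool.Agent.Y86.FJ.t_sig
  (Pool.Agent.Y232.FJ.TW.t_tw rgp_) Pool.Agent.Y529.FJ.t_eppa

theorem lgf_ : S_LGF := Pool.Agent.Y447.FJ.t_lgf crit_ Pool.Agent.Y312.FJ.t_eppal

theorem cox_ : S_COX := Pool.Agent.Y220.FJ.t_cox lgf_ Pool.Agent.Y70.FJ.Cox.t_coxi

end Pool.Agent.Y110.FJ
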