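import Pool.Agent.Y110.FJ.Stm5
import Pool.Agent.Y50.FJ.Gp

/-!
Periodic functions extended by the integers.
-/

set_option autoImplicit false

namespace Pool.Agent.Y110.FJ

open Pool.Agent.Y70.FJ (U)

theorem t_pp : S_PP := by
  intro C hC Γ _ m hm hΓ K hK
  have hper : ∀ x ∈ K, ∀ (n k : ℤ), x.f (n + m * k) = x.f n := by
    intro x hx n k
    induction k using Int.induction_on with
    | zero => simp
    | succ k ih =>
      rw [show n + (m : ℤ) * ((k : ℤ) + 1) = (n + m * k) + m by ring, hK x hx, ih]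
    | pred k ih =>
      have h := hK x hx (n + (m : ℤ) * (-(k : ℤ) - 1))
      rw [show n + (m : ℤ) * (-(k : ℤ) - 1) + m = n + m * (-(k : ℤ)) by ring] at h
      rw [← h, ih]
  have : NeZero m := ⟨hm.ne'⟩
  let κ : K →* Multiplicative (ZMod m) :=
    { toFun := fun x => Multiplicative.ofAdd ((x.1.m : ℤ) : ZMod m)
      map_one' := by
        show Multiplicative.ofAdd (((1 : U Γ).m : ℤ) : ZMod m) = 1
        rw [U.one_m, Int.cast_zero]
        rfl
      map_mul' := by
        intro x y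
        show Multiplicative.ofAdd (((x.1 * y.1 : U Γ).m : ℤ) : ZMod m) = _
        rw [U.mul_m, Int.cast_add]
        rfl }
  have hfin : κ.ker.FiniteIndex := Subgroup.finiteIndex_ker κ
  refine hC.base.finiteIndex K κ.ker hfin ?_
  have hdvd : ∀ x : κ.ker, ∃ k : ℤ, x.1.1.m = m * k := by
    intro x
    have h1 : ((x.1.1.m : ℤ) : ZMod m) = 0 := Multiplicative.ofAdd.injective x.2
    rw [ZMod.intCast_zmod_eq_zero_iff_dvd] at h1
    exact h1
  let F : κ.ker →* (∀ _ : (Finset.range m : Finset ℕ), Γ) × Multiplicative ℤ :=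
    { toFun := fun x => (fun i => x.1.1.f ((i : ℕ) : ℤ), Multiplicative.ofAdd x.1.1.m)
      map_one' := rfl
      map_mul' := by
        intro x y
        obtain ⟨k, hk⟩ := hdvd x
        refine Prod.ext ?_ rfl
        funext i
        show (x.1.1 * y.1.1).f ((i : ℕ) : ℤ) = x.1.1.f ((i : ℕ) : ℤ) * y.1.1.f ((i : ℕ) : ℤ)
        rw [U.mul_f, hk]
        congr 1
        have h := hper y.1.1 y.1.2 ((i : ℕ) : ℤ) (-k)
        rw [show ((i : ℕ) : ℤ) + (m : ℤ) * (-k) = ((i : ℕ) : ℤ) - m * k by ring] at h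
        exact h }
  refine hC.base.of_injective _ _ F ?_
    (hC.base.prod _ _ (Pool.Agent.Y50.FJ.pi_mem C hC.base (fun _ : ℕ => Γ) (fun _ => hΓ)
      (Finset.range m)) hC.base.int)
  intro x y hxy
  apply Subtype.ext
  apply Subtype.ext
  have h1 : ∀ i : ℕ, i < m → x.1.1.f (i : ℤ) = y.1.1.f (i : ℤ) := fun i hi =>
    congrFun (congrArg Prod.fst hxy) ⟨i, Finset.mem_range.2 hi⟩
  have h2 : x.1.1.m = y.1.1.m := Multiplicative.ofAdd.injective (congrArg Prod.snd hxy)
  refine U.ext ?_ h2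
  funext n
  have hm' : (m : ℤ) ≠ 0 := by exact_mod_cast hm.ne'
  have h3 : n = ((n % m).toNat : ℤ) + m * (n / m) := by
    rw [Int.toNat_of_nonneg (Int.emod_nonneg n hm')]
    exact (Int.emod_add_mul_ediv n m).symm
  have h4 : (n % m).toNat < m := by
    have := Int.emod_lt_of_pos n (show (0 : ℤ) < m by exact_mod_cast hm)
    have h5 := Int.emod_nonneg n hm'
    omega
  rw [h3, hper x.1.1 x.1.2, hper y.1.1 y.1.2]
  exact h1 _ h4

end Pool.Agent.Y110.FJ
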