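import Pool.Agent.Y110.FJ.All
import Pool.Agent.Y110.FJ.PP
import Pool.Agent.Y983.FJ.EPK
import Pool.Agent.Y397.FJ.Simp
import Pool.Agent.Y474.FJ.Simpt

/-!
The statements of project FJ, part 5, without hypotheses.
-/

set_option autoImplicit false

namespace Pool.Agent.Y110.FJ

theorem simp_ : S_SIMP :=
  Pool.Agent.Y397.FJ.t_simp crit_ (Pool.Agent.Y983.FJ.EPK.t_epk inn_ t_pp)

theorem simpt_ : S_SIMPT := Pool.Agent.Y474.FJ.t_simpt simp_

end Pool.Agent.Y110.FJ
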