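import Pool.Agent.Y110.FJ.Crit
import Pool.Agent.Y261.FJ.GPI
import Pool.Agent.Y529.FJ.Eppa

/-!
Graph-wreath products.
-/

set_option autoImplicit false

namespace Pool.Agent.Y110.FJ

open Pool.Agent.Y462.SS (Closed)
open Pool.Agent.Y261.FJ

/-- semidirect products with a finite group of automorphisms -/
theorem c_semi_finite {C : ∀ (G : Type) [Group G], Prop} (hC : Closed C) (N H : Type) [Group N]
    [Group H] [Finite H] (φ : H →* MulAut N) (hN : C N) : C (N ⋊[φ] H) := by
  have h1 : C ↥(SemidirectProduct.rightHom : N ⋊[φ] H →* H).ker := by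
    refine hC.of_injective _ N
      { toFun := fun x => x.1.left
        map_one' := rfl
        map_mul' := ?_ } ?_ hN
    · rintro ⟨x, hx⟩ ⟨y, hy⟩
      have hx' : x.right = 1 := hx
      show (x * y).left = _
      rw [SemidirectProduct.mul_left, hx', map_one]
      rfl
    · rintro ⟨x, hx⟩ ⟨y, hy⟩ hxy
      have hx' : x.right = 1 := hx
      have hy' : y.right = 1 := hy
      exact Subtype.ext (SemidirectProduct.ext hxy (hx'.trans hy'.symm))
  exact hC.finiteIndex _ _ (Subgroup.finiteIndex_ker _) h1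

theorem aux1 {P : Type} [Group P] (a b c : P) :
    a * b * a⁻¹ * (a * c * a⁻¹) = a * (b * c) * a⁻¹ := by group

theorem aux2 {P : Type} [Group P] (a b : P) : (a * b * a⁻¹)⁻¹ = a * b⁻¹ * a⁻¹ := by group

theorem aux3 {P : Type} [Group P] (a b c : P) :
    a * (b * c * b⁻¹) * a⁻¹ = a * b * c * (a * b)⁻¹ := by group

theorem aux4 {P : Type} [Group P] (a : P) : 1 = a * 1 * a⁻¹ := by group

theorem t_gw (h : S_CRIT) (h2 : S_GP) : S_GW := by
  classical
  intro C hC V Q A _ _ _ Λ α hΛ hα hA hQ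
  have hadj : ∀ (q : Q) (v w : V), Λ.Adj (q • v) (q • w) ↔ Λ.Adj v w := by
    intro q v w
    refine ⟨fun hh => ?_, hΛ q v w⟩
    have := hΛ q⁻¹ _ _ hh
    rwa [inv_smul_smul, inv_smul_smul] at this
  set N : Subgroup (GrP Λ (fun _ => A) ⋊[α] Q) :=
    (SemidirectProduct.rightHom : GrP Λ (fun _ => A) ⋊[α] Q →* Q).ker with hN
  refine h C hC _ N ?_ ?_
  · exact hC.base.of_injective _ Q (QuotientGroup.kerLift _) (QuotientGroup.kerLift_injective _) hQ
  intro g E hE hEN
  have hright : ∀ x ∈ N, x.right = 1 := fun x hx => hx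
  -- a finite set of vertices
  obtain ⟨S0, hS0, hS0E⟩ := exists_gc_finite (Λ := Λ) (A := fun _ => A)
    (hE.image (fun x : GrP Λ (fun _ => A) ⋊[α] Q => x.left))
  obtain ⟨Su, hSu, hSuu⟩ := exists_gc (Λ := Λ) (A := fun _ => A) g.left
  set S : Set V := S0 ∪ (fun v => g.right • v) '' S0 ∪ Su with hS
  have hSfin : S.Finite := (hS0.union (hS0.image _)).union hSu
  have hS0S : S0 ⊆ S := fun v hv => Or.inl (Or.inl hv)
  have hgS : ∀ v ∈ S0, g.right • v ∈ S := fun v hv => Or.inl (Or.inr ⟨v, hv, rfl⟩)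
  haveI : Finite S := hSfin
  obtain ⟨T, hT, Λ', ι, τ, hι, hιadj, hτ, hτι⟩ := Pool.Agent.Y529.FJ.t_eppa S inferInstance
    (Λ.induce S) {x | (x : V) ∈ S0} (fun x => ⟨g.right • (x.1 : V), hgS _ x.2⟩)
    (by
      intro x y hxy
      have h1 : g.right • ((x.1 : S) : V) = g.right • ((y.1 : S) : V) := congrArg Subtype.val hxy
      exact Subtype.ext (Subtype.ext ((MulAction.injective g.right) h1)))
    (by
      intro x y
      exact hadj g.right _ _)
  haveI := hT
  -- the automorphism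
  obtain ⟨k, hk, hτk⟩ : ∃ k : ℕ, 0 < k ∧ τ ^ k = 1 :=
    ⟨orderOf τ, orderOf_pos τ, pow_orderOf_eq_one τ⟩
  have hσk := gperm_pow_eq_one (A := A) τ hτ hτk
  set σ : MulAut (GrP Λ' (fun _ => A)) := gperm A τ hτ with hσ
  haveI : Finite (Subgroup.zpowers σ) := (isOfFinOrder_iff_pow_eq_one.2 ⟨k, hk, hσk⟩).finite_zpowers
  obtain ⟨ρ, hρ1, -⟩ := gret (Λ := Λ.induce S) (Λ' := Λ) A Subtype.val Subtype.val_injective
    (fun _ _ hh => hh)
  let P : Type := GrP Λ' (fun _ => A) ⋊[(Subgroup.zpowers σ).subtype] (Subgroup.zpowers σ)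
  let inlP : GrP Λ' (fun _ => A) →* P := SemidirectProduct.inl
  let inrP : Subgroup.zpowers σ →* P := SemidirectProduct.inr
  let jm : GrP (Λ.induce S) (fun _ => A) →* GrP Λ' (fun _ => A) :=
    gmap A ι fun v w => (hιadj v w).2
  have hjm : Function.Injective jm := gmap_injective A ι hι hιadj
  let f0 : GrP Λ (fun _ => A) →* P := (inlP.comp jm).comp ρ
  have hρ2 : ∀ x ∈ gc Λ (fun _ => A) S, gincl (Λ := Λ) A S (ρ x) = x := by
    intro x hx
    refine Subgroup.closure_induction (p := fun x _ => gincl (Λ := Λ) A S (ρ x) = x) ?_ ?_ ?_ ?_ hx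
    · rintro x ⟨v, hv, a, rfl⟩
      rw [hρ1 ⟨v, hv⟩ a, gincl_of]
    · rw [map_one, map_one]
    · intro x y _ _ hx hy
      rw [map_mul, map_mul, hx, hy]
    · intro x _ hx
      rw [map_inv, map_inv, hx]
  have hf0inj : ∀ x ∈ gc Λ (fun _ => A) S, ∀ y ∈ gc Λ (fun _ => A) S, f0 x = f0 y → x = y := by
    intro x hx y hy hxy
    have h1 : ρ x = ρ y := hjm (SemidirectProduct.inl_injective hxy)
    rw [← hρ2 x hx, ← hρ2 y hy, h1]
  let s : Subgroup.zpowers σ := ⟨σ, Subgroup.mem_zpowers σ⟩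
  have hconj : ∀ x ∈ gc Λ (fun _ => A) S0, f0 (α g.right x) = inrP s * f0 x * (inrP s)⁻¹ := by
    intro x hx
    refine Subgroup.closure_induction
      (p := fun x _ => f0 (α g.right x) = inrP s * f0 x * (inrP s)⁻¹) ?_ ?_ ?_ ?_ hx
    · rintro x ⟨v, hv, a, rfl⟩
      rw [hα g.right v a]
      have e1 : ρ (GrP.of Λ (fun _ => A) (MulAction.toPerm g.right v) a) =
          GrP.of (Λ.induce S) (fun _ => A) ⟨g.right • v, hgS v hv⟩ a :=
        hρ1 ⟨g.right • v, hgS v hv⟩ a
      have e2 : ρ (GrP.of Λ (fun _ => A) v a) =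
          GrP.of (Λ.induce S) (fun _ => A) ⟨v, hS0S hv⟩ a := hρ1 ⟨v, hS0S hv⟩ a
      show inlP (jm (ρ _)) = inrP s * inlP (jm (ρ _)) * (inrP s)⁻¹
      rw [e1, e2]
      have e3 : jm (GrP.of (Λ.induce S) (fun _ => A) ⟨g.right • v, hgS v hv⟩ a) =
          σ (jm (GrP.of (Λ.induce S) (fun _ => A) ⟨v, hS0S hv⟩ a)) := by
        show gmap A ι _ _ = σ (gmap A ι _ _)
        rw [gmap_of, gmap_of, gperm_isPerm A τ hτ]
        have := hτι ⟨⟨v, hS0S hv⟩, hv⟩
        rw [← this]
      rw [e3]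
      exact SemidirectProduct.inl_aut (φ := (Subgroup.zpowers σ).subtype) s _
    · rw [map_one, map_one]
      exact aux4 _
    · intro x y _ _ hx hy
      rw [map_mul, map_mul, hx, hy, map_mul]
      exact aux1 _ _ _
    · intro x _ hx
      rw [map_inv, map_inv, hx, map_inv]
      exact aux2 _ _
  set K : Subgroup (GrP Λ (fun _ => A) ⋊[α] Q) :=
    Subgroup.closure (E ∪ (fun x => g * x * g⁻¹) '' E) with hK
  have hmapS0 : ∀ x ∈ gc Λ (fun _ => A) S0, α g.right x ∈ gc Λ (fun _ => A) S := by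
    intro x hx
    refine Subgroup.closure_induction
      (p := fun x _ => α g.right x ∈ gc Λ (fun _ => A) S) ?_ ?_ ?_ ?_ hx
    · rintro x ⟨v, hv, a, rfl⟩
      rw [hα g.right v a]
      exact of_mem_gc (A := fun _ => A) (hgS v hv) a
    · rw [map_one]; exact Subgroup.one_mem _
    · intro x y _ _ hx hy
      rw [map_mul]; exact Subgroup.mul_mem _ hx hy
    · intro x _ hx
      rw [map_inv]; exact Subgroup.inv_mem _ hx
  have hgconj : ∀ x : GrP Λ (fun _ => A) ⋊[α] Q, x.right = 1 →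
      (g * x * g⁻¹).left = g.left * α g.right x.left * g.left⁻¹ ∧ (g * x * g⁻¹).right = 1 := by
    intro x hx
    have hx1 : x = SemidirectProduct.inl x.left := SemidirectProduct.ext rfl hx
    constructor
    · rw [SemidirectProduct.mul_left, SemidirectProduct.mul_left, SemidirectProduct.mul_right, hx,
        mul_one, SemidirectProduct.inv_left, map_inv α, MulAut.apply_inv_self]
    · rw [SemidirectProduct.mul_right, SemidirectProduct.mul_right, hx, mul_one,
        SemidirectProduct.inv_right, mul_inv_cancel]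
  have hSu' : g.left ∈ gc Λ (fun _ => A) S := gc_mono (fun v hv => Or.inr hv) hSuu
  -- the subgroup of elements with left part in `gc S` and trivial right part
  let W : Subgroup (GrP Λ (fun _ => A) ⋊[α] Q) := (gc Λ (fun _ => A) S).map SemidirectProduct.inl
  have hKW : K ≤ W := by
    rw [hK, Subgroup.closure_le]
    rintro x (hx | ⟨x, hx, rfl⟩)
    · have h1 : x.left ∈ gc Λ (fun _ => A) S0 := hS0E ⟨x, hx, rfl⟩
      have h5 : (SemidirectProduct.inl x.left : GrP Λ (fun _ => A) ⋊[α] Q) = x :=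
        SemidirectProduct.ext (by rw [SemidirectProduct.left_inl])
          (by rw [SemidirectProduct.right_inl]; exact (hright x (hEN hx)).symm)
      exact ⟨x.left, gc_mono hS0S h1, h5⟩
    · have h1 : x.left ∈ gc Λ (fun _ => A) S0 := hS0E ⟨x, hx, rfl⟩
      obtain ⟨h3, h4⟩ := hgconj x (hright x (hEN hx))
      refine ⟨g.left * α g.right x.left * g.left⁻¹, ?_, ?_⟩
      · exact Subgroup.mul_mem _ (Subgroup.mul_mem _ hSu' (hmapS0 _ h1)) (Subgroup.inv_mem _ hSu')
      · exact SemidirectProduct.ext (by rw [SemidirectProduct.left_inl]; exact h3.symm)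
          (by rw [SemidirectProduct.right_inl]; exact h4.symm)
  have hKr : ∀ x ∈ K, x.right = 1 := by
    intro x hx
    obtain ⟨y, -, rfl⟩ := hKW hx
    rfl
  have hKl : ∀ x ∈ K, x.left ∈ gc Λ (fun _ => A) S := by
    intro x hx
    obtain ⟨y, hy, rfl⟩ := hKW hx
    exact hy
  refine ⟨P, inferInstance,
    { toFun := fun x => f0 x.1.left
      map_one' := by
        show f0 (1 : GrP Λ (fun _ => A) ⋊[α] Q).left = 1
        rw [SemidirectProduct.one_left, map_one]
      map_mul' := ?_ }, f0 g.left * inrP s, ?_, ?_, ?_⟩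
  · intro x y
    show f0 ((x : GrP Λ (fun _ => A) ⋊[α] Q) * y).left = _
    rw [SemidirectProduct.mul_left, hKr x x.2, map_one, MulAut.one_apply, map_mul]
  · exact c_semi_finite hC.base _ _ _ (h2 C hC T Λ' (fun _ => A) fun _ => hA)
  · intro x y hxy
    have h1 := hf0inj _ (hKl x x.2) _ (hKl y y.2) hxy
    exact Subtype.ext (SemidirectProduct.ext h1 ((hKr x x.2).trans (hKr y y.2).symm))
  · intro x y hx hy
    have h1 : (x : GrP Λ (fun _ => A) ⋊[α] Q).left ∈ gc Λ (fun _ => A) S0 := hS0E ⟨x, hx, rfl⟩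
    show f0 (y : GrP Λ (fun _ => A) ⋊[α] Q).left = f0 g.left * inrP s *
      f0 (x : GrP Λ (fun _ => A) ⋊[α] Q).left * (f0 g.left * inrP s)⁻¹
    have e1 : f0 (g.left * α g.right (x : GrP Λ (fun _ => A) ⋊[α] Q).left * g.left⁻¹) =
        f0 g.left * (inrP s * f0 (x : GrP Λ (fun _ => A) ⋊[α] Q).left * (inrP s)⁻¹) *
          (f0 g.left)⁻¹ := by
      rw [map_mul, map_mul, hconj _ h1, map_inv]
    rw [hy, (hgconj x (hKr x x.2)).1, e1]
    exact aux3 _ _ _

end Pool.Agent.Y110.FJ
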