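import Pool.Agent.Y110.FJ.All

/-!
# Extensions with locally realized conjugations

The criterion as an equivalence, and its main instances. Owner helper110.
-/

set_option autoImplicit false

namespace Pool.Agent.Y110.FJ

open Pool.Agent.Y462.SS (Closed)
open SemidirectProduct

/-- conjugation by `g` on the finite subset `E` of `N` is given by an automorphism `σ` of a subgroup
`M` of `N` a positive power of which is inner -/
def LocInner {G : Type} [Group G] (N : Subgroup G) (g : G) (E : Set G) : Prop :=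
  ∃ (M : Subgroup G) (σ : MulAut M) (k : ℕ) (n : M), M ≤ N ∧ E ⊆ M ∧ 0 < k ∧ σ ^ k = MulAut.conj n ∧
    ∀ x : M, (x : G) ∈ E → ((σ x : M) : G) = g * (x : G) * g⁻¹

/-- **the criterion as an equivalence** -/
theorem crit_iff (C : ∀ (G : Type) [Group G], Prop) (hC : ClosedE C) (G : Type) [Group G]
    (N : Subgroup G) [N.Normal] (hQ : C (G ⧸ N)) :
    C G ↔ C N ∧ ∀ g : G, (∀ n : ℕ, 0 < n → g ^ n ∉ N) → ∀ E : Set G, E.Finite → E ⊆ N →
      Realized C g E := by
  constructor
  · intro h
    refine ⟨hC.base.of_injective _ _ N.subtype N.subtype_injective h, ?_⟩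
    intro g _ E _ _
    refine ⟨G, inferInstance, Subgroup.subtype _, g, h, Subgroup.subtype_injective _, ?_⟩
    intro x y _ hy
    exact hy
  · rintro ⟨hN, hR⟩
    exact Pool.Agent.Y529.FJ.t_ext C hC G N hN hQ
      (fun g hg => Pool.Agent.Y497.FJ.t_col hnn_ C hC G N g hg (hR g hg))

theorem realized_of_locInner {C : ∀ (G : Type) [Group G], Prop} (hC : ClosedE C) {G : Type} [Group G]
    {N : Subgroup G} (hN : C N) {g : G} {E : Set G} (h : LocInner N g E) : Realized C g E := by
  obtain ⟨M, σ, k, n, hMN, hEM, hk, hσ, hx⟩ := h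
  have hle : Subgroup.closure (E ∪ (fun x => g * x * g⁻¹) '' E) ≤ M := by
    rw [Subgroup.closure_le]
    rintro x (hx' | ⟨y, hy, rfl⟩)
    · exact hEM hx'
    · have h1 := hx ⟨y, hEM hy⟩ hy
      show g * y * g⁻¹ ∈ M
      rw [← h1]
      exact SetLike.coe_mem _
  have hM : C M := hC.base.of_injective _ _ (Subgroup.inclusion hMN) (Subgroup.inclusion_injective hMN) hN
  refine ⟨M ⋊[zpowersHom (MulAut M) σ] Multiplicative ℤ, inferInstance,
    (inl).comp (Subgroup.inclusion hle), inr (Multiplicative.ofAdd 1),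
    Pool.Agent.Y467.FJ.torus_mem hC hM σ k hk n hσ, ?_, ?_⟩
  · exact inl_injective.comp (Subgroup.inclusion_injective hle)
  · intro x y hxE hy
    rw [MonoidHom.comp_apply, MonoidHom.comp_apply, ← map_inv, ← inl_aut]
    congr 1
    apply Subtype.ext
    rw [zpowersHom_apply, toAdd_ofAdd, zpow_one]
    rw [hx (Subgroup.inclusion hle x) hxE]
    exact hy

/-- kernels on which the group acts locally by automorphisms of subgroups of finite order modulo inner
ones -/
theorem locInner_ (C : ∀ (G : Type) [Group G], Prop) (hC : ClosedE C) (G : Type) [Group G]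
    (N : Subgroup G) [N.Normal] (hN : C N) (hQ : C (G ⧸ N))
    (h : ∀ g : G, (∀ n : ℕ, 0 < n → g ^ n ∉ N) → ∀ E : Set G, E.Finite → E ⊆ N → LocInner N g E) :
    C G :=
  (crit_iff C hC G N hQ).2 ⟨hN, fun g hg E hE hEN => realized_of_locInner hC hN (h g hg E hE hEN)⟩

/-- kernels on which the group acts in a locally periodic way: every element of the kernel commutes
with a positive power of `g` -/
theorem locPer_ (C : ∀ (G : Type) [Group G], Prop) (hC : ClosedE C) (G : Type) [Group G]
    (N : Subgroup G) [N.Normal] (hN : C N) (hQ : C (G ⧸ N))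
    (h : ∀ g : G, (∀ n : ℕ, 0 < n → g ^ n ∉ N) → ∀ x ∈ N, ∃ k : ℕ, 0 < k ∧ g ^ k * x = x * g ^ k) :
    C G := by
  classical
  refine locInner_ C hC G N hN hQ ?_
  intro g hg E hE hEN
  -- a common period
  obtain ⟨k, hk, hkE⟩ : ∃ k : ℕ, 0 < k ∧ ∀ x ∈ E, g ^ k * x = x * g ^ k := by
    refine Set.Finite.induction_on_subset (motive := fun F _ => ∃ k : ℕ, 0 < k ∧ ∀ x ∈ F, g ^ k * x = x * g ^ k)
      E hE ⟨1, one_pos, by simp⟩ ?_
    rintro a F ha _ _ ⟨k, hk, hkF⟩
    obtain ⟨l, hl, hla⟩ := h g hg a (hEN ha)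
    refine ⟨k * l, Nat.mul_pos hk hl, ?_⟩
    rintro x (rfl | hx)
    · have h1 : Commute (g ^ l) x := hla
      have h2 := h1.pow_left k
      rw [← pow_mul, mul_comm] at h2
      exact h2
    · have h1 : Commute (g ^ k) x := hkF x hx
      have h2 := h1.pow_left l
      rw [← pow_mul] at h2
      exact h2
  -- the elements of `N` which commute with `g ^ k`
  let M : Subgroup G := N ⊓ Subgroup.centralizer {g ^ k}
  have hM : ∀ x : G, x ∈ M ↔ x ∈ N ∧ g ^ k * x = x * g ^ k := by
    intro x
    rw [Subgroup.mem_inf, Subgroup.mem_centralizer_singleton_iff]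
    exact and_congr_right fun _ => eq_comm
  have hgM : ∀ x ∈ M, g * x * g⁻¹ ∈ M := by
    intro x hx
    rw [hM] at hx ⊢
    refine ⟨(inferInstance : N.Normal).conj_mem x hx.1 g, ?_⟩
    have h1 : Commute (g ^ k) x := hx.2
    have h2 : Commute (g ^ k) g := Commute.pow_self g k
    exact ((h2.mul_right h1).mul_right h2.inv_right).eq
  have hgM' : ∀ x ∈ M, g⁻¹ * x * g ∈ M := by
    intro x hx
    rw [hM] at hx ⊢
    refine ⟨?_, ?_⟩
    · have := (inferInstance : N.Normal).conj_mem x hx.1 g⁻¹
      rwa [inv_inv] at this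
    · have h1 : Commute (g ^ k) x := hx.2
      have h2 : Commute (g ^ k) g := Commute.pow_self g k
      exact ((h2.inv_right.mul_right h1).mul_right h2).eq
  let σ : MulAut M :=
    { toFun := fun x => ⟨g * x * g⁻¹, hgM x x.2⟩
      invFun := fun x => ⟨g⁻¹ * x * g, hgM' x x.2⟩
      left_inv := fun x => Subtype.ext (by show g⁻¹ * (g * x * g⁻¹) * g = x; group)
      right_inv := fun x => Subtype.ext (by show g * (g⁻¹ * x * g) * g⁻¹ = x; group)
      map_mul' := fun x y => Subtype.ext (by
        show g * (x * y : G) * g⁻¹ = g * x * g⁻¹ * (g * y * g⁻¹); group) }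
  have hσ : ∀ (j : ℕ) (x : M), (((σ ^ j) x : M) : G) = g ^ j * x * (g ^ j)⁻¹ := by
    intro j
    induction j with
    | zero => intro x; simp
    | succ j ih =>
      intro x
      rw [pow_succ', MulAut.mul_apply]
      show g * ((σ ^ j) x : M) * g⁻¹ = _
      rw [ih, pow_succ']
      group
  refine ⟨M, σ, k, 1, inf_le_left, fun x hx => (hM x).2 ⟨hEN hx, hkE x hx⟩, hk, ?_, fun x _ => rfl⟩
  ext x
  rw [hσ, map_one, MulAut.one_apply, ((hM x).1 x.2).2]
  group

end Pool.Agent.Y110.FJ
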