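import Pool.Agent.Y110.FJ.All5
import Pool.Agent.Y569.FJ.Lim

/-!
# Every group in `C` embeds in a mitotic group in `C`

Owner helper110.
-/

set_option autoImplicit false

namespace Pool.Agent.Y110.FJ

open Pool.Agent.Y462.SS (Closed)
open Pool.Agent.Y569.FJ (ofLim C_lim ofLim_surj ofLim_apply)

/-- the subgroup `K` has a mitosis in `G`: there are `s` and `d` with `d⁻¹ g d = g (s⁻¹ g s)` such that
`K` and `s⁻¹ K s` commute -/
def HasMitosis {G : Type} [Group G] (K : Subgroup G) : Prop :=
  ∃ s d : G, ∀ g ∈ K, d⁻¹ * g * d = g * (s⁻¹ * g * s) ∧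
    ∀ g' ∈ K, g' * (s⁻¹ * g * s) = s⁻¹ * g * s * g'

/-- a group is mitotic if every finitely generated subgroup has a mitosis -/
def IsMitotic (G : Type) [Group G] : Prop := ∀ K : Subgroup G, K.FG → HasMitosis K

/-- torsion-free groups -/
def TFree (G : Type) [Group G] : Prop := ∀ (g : G) (n : ℕ), 0 < n → g ^ n = 1 → g = 1

namespace Mit

/-- the set on which the permutations act -/
abbrev X : Type := ℕ ⊕ (ℕ ⊕ ℕ)

/-- the swap of the first two copies of `ℕ` -/
def sw : Equiv.Perm X :=
  ((Equiv.sumAssoc ℕ ℕ ℕ).symm.trans (Equiv.sumCongr (Equiv.sumComm ℕ ℕ) (Equiv.refl ℕ))).trans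
    (Equiv.sumAssoc ℕ ℕ ℕ)

/-- a permutation which maps the first copy onto the union of the first two -/
def db : Equiv.Perm X :=
  (Equiv.sumCongr Equiv.natSumNatEquivNat.symm Equiv.natSumNatEquivNat).trans
    (Equiv.sumAssoc ℕ ℕ ℕ)

/-- the free group acting on `X` -/
abbrev Q : Type := FreeGroup Bool

/-- the action -/
def ρ : Q →* Equiv.Perm X := FreeGroup.lift (fun b => if b then sw else db)

instance : MulAction Q X := MulAction.compHom X ρ

theorem smul_def' (q : Q) (x : X) : q • x = ρ q x := rfl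

/-- all subsets -/
theorem alg : IsAlg (Set.univ : Set (Set X)) := ⟨trivial, fun _ _ => trivial, fun _ _ _ _ => trivial⟩

variable (A : Type) [Group A]

/-- the group of functions with finitely many values -/
abbrev Fn : Type := ↥(Simp alg A)

/-- the action on functions -/
def αf (q : Q) : Fn A ≃* Fn A where
  toFun f := ⟨fun x => (f : X → A) (q⁻¹ • x), by
    refine ⟨f.2.1.subset ?_, fun _ => trivial⟩
    rintro _ ⟨x, rfl⟩
    exact ⟨_, rfl⟩⟩
  invFun f := ⟨fun x => (f : X → A) (q • x), by
    refine ⟨f.2.1.subset ?_, fun _ => trivial⟩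
    rintro _ ⟨x, rfl⟩
    exact ⟨_, rfl⟩⟩
  left_inv f := by
    apply Subtype.ext
    funext x
    simp
  right_inv f := by
    apply Subtype.ext
    funext x
    simp
  map_mul' f g := rfl

/-- the action on functions -/
def α : Q →* MulAut (Fn A) where
  toFun := αf A
  map_one' := by
    apply MulEquiv.ext
    intro f
    apply Subtype.ext
    funext x
    simp [αf]
  map_mul' p q := by
    apply MulEquiv.ext
    intro f
    apply Subtype.ext
    funext x
    simp [αf, mul_smul]

theorem α_apply (q : Q) (f : Fn A) (x : X) : ((α A q f : Fn A) : X → A) x = (f : X → A) (q⁻¹ • x) :=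
  rfl

/-- the functions supported by the first copy of `ℕ` with one value there -/
def jf : A →* Fn A where
  toFun a := ⟨Sum.elim (fun _ => a) (fun _ => 1), by
    refine ⟨(Set.toFinite {a, 1}).subset ?_, fun _ => trivial⟩
    rintro _ ⟨x | x, rfl⟩ <;> simp⟩
  map_one' := by
    apply Subtype.ext
    funext x
    rcases x with x | x <;> rfl
  map_mul' a b := by
    apply Subtype.ext
    funext x
    rcases x with x | x <;> simp

/-- the group -/
abbrev P : Type := Fn A ⋊[α A] Q

/-- the embedding -/
def j : A →* P A := SemidirectProduct.inl.comp (jf A)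

theorem j_injective : Function.Injective (j A) := by
  intro a b h
  have h1 := SemidirectProduct.inl_injective h
  exact congrFun (congrArg (fun f : Fn A => (f : X → A)) h1) (Sum.inl 0)

/-- the element of the free group acting by the swap -/
def sq : Q := FreeGroup.of true

/-- the element of the free group acting by the doubling -/
def dq : Q := FreeGroup.of false

theorem ρ_sq : ρ sq = sw := by simp [ρ, sq]

theorem ρ_dq : ρ dq = db := by simp [ρ, dq]

theorem dbl (a : A) : α A dq (jf A a) = jf A a * α A sq (jf A a) := by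
  apply Subtype.ext
  funext x
  rw [Subgroup.coe_mul, Pi.mul_apply, α_apply, α_apply, smul_def', smul_def', map_inv, map_inv,
    ρ_sq, ρ_dq, Equiv.Perm.inv_def, Equiv.Perm.inv_def]
  rcases x with n | n | n
  · simp [jf, sw, db]
  · simp [jf, sw, db]
  · simp [jf, sw, db]

theorem cmm (a b : A) : jf A a * α A sq (jf A b) = α A sq (jf A b) * jf A a := by
  apply Subtype.ext
  funext x
  rw [Subgroup.coe_mul, Subgroup.coe_mul, Pi.mul_apply, Pi.mul_apply, α_apply, smul_def', map_inv,
    ρ_sq, Equiv.Perm.inv_def]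
  rcases x with n | n | n
  · simp [jf, sw]
  · simp [jf, sw]
  · simp [jf, sw]

theorem tfree_Q : TFree Q := by
  intro g n hn h
  have h1 : g ^ n = 1 ^ n := by rw [h, one_pow]
  exact (IsMulTorsionFree.pow_left_injective (M := Q) hn.ne') h1

theorem tfree_P (h : TFree A) : TFree (P A) := by
  intro x n hn hx
  have h1 : x.right = 1 := by
    refine tfree_Q _ n hn ?_
    have := congrArg SemidirectProduct.rightHom hx
    rwa [map_pow, map_one] at this
  have h2 : x = SemidirectProduct.inl x.left := by
    apply SemidirectProduct.ext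
    · simp
    · simp [h1]
  rw [h2, ← map_pow] at hx
  have h3 : x.left ^ n = 1 := SemidirectProduct.inl_injective (hx.trans (map_one _).symm)
  have h4 : x.left = 1 := by
    apply Subtype.ext
    funext y
    refine h _ n hn ?_
    have := congrFun (congrArg Subtype.val h3) y
    simpa using this
  rw [h2, h4, map_one]

theorem step (C : ∀ (G : Type) [Group G], Prop) (hC : ClosedE C) (hA : C A) :
    ∃ (P : Type) (_ : Group P) (f : A →* P) (s d : P), C P ∧ Function.Injective f ∧
      (∀ a, d⁻¹ * f a * d = f a * (s⁻¹ * f a * s)) ∧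
      (∀ a b, f a * (s⁻¹ * f b * s) = s⁻¹ * f b * s * f a) ∧ (Countable A → Countable P) ∧
      Subgroup.closure (Set.range f ∪ {s, d}) = ⊤ ∧ (TFree A → TFree P) := by
  have hP : C (P A) := simp_ C hC X Q A Set.univ alg (α A) (fun _ _ _ => trivial)
    (fun q f x => rfl) hA (Pool.Agent.Y179.SS.t_free C hC.base Bool)
  have h1 : ∀ (q : Q) (a : A), (SemidirectProduct.inr q⁻¹ : P A)⁻¹ * j A a *
      SemidirectProduct.inr q⁻¹ = SemidirectProduct.inl (α A q (jf A a)) := by
    intro q a
    rw [SemidirectProduct.inl_aut, map_inv, inv_inv, j, MonoidHom.comp_apply]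
  let s₀ : P A := SemidirectProduct.inr sq⁻¹
  let d₀ : P A := SemidirectProduct.inr dq⁻¹
  let S : Set (P A) := Set.range (j A) ∪ {s₀, d₀}
  have hj : ∀ a, j A a ∈ Subgroup.closure S := fun a =>
    Subgroup.subset_closure (Or.inl ⟨a, rfl⟩)
  have hs : s₀ ∈ Subgroup.closure S := Subgroup.subset_closure (Or.inr (Or.inl rfl))
  have hd : d₀ ∈ Subgroup.closure S := Subgroup.subset_closure (Or.inr (Or.inr rfl))
  refine ⟨↥(Subgroup.closure S), inferInstance, (j A).codRestrict _ hj, ⟨s₀, hs⟩, ⟨d₀, hd⟩,
    hC.base.of_injective _ _ (Subgroup.subtype _) (Subgroup.subtype_injective _) hP, ?_, ?_, ?_, ?_,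
    ?_, ?_⟩
  · intro a b h
    exact j_injective A (congrArg Subtype.val h)
  · intro a
    apply Subtype.ext
    change d₀⁻¹ * j A a * d₀ = j A a * (s₀⁻¹ * j A a * s₀)
    rw [h1, h1, dbl, map_mul]
    rfl
  · intro a b
    apply Subtype.ext
    change j A a * (s₀⁻¹ * j A b * s₀) = s₀⁻¹ * j A b * s₀ * j A a
    rw [h1]
    change SemidirectProduct.inl (jf A a) * SemidirectProduct.inl _ =
      SemidirectProduct.inl _ * SemidirectProduct.inl (jf A a)
    rw [← map_mul, ← map_mul, cmm]
  · intro hA'
    have hS : S.Countable := (Set.countable_range _).union (Set.toFinite _).countable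
    have h2 := FreeGroup.range_lift_eq_closure (f := (Subtype.val : S → P A))
    rw [Subtype.range_coe] at h2
    have : Countable S := hS
    rw [← h2]
    exact (MonoidHom.rangeRestrict_surjective _).countable
  · rw [eq_top_iff, ← Subgroup.closure_closure_coe_preimage (k := S)]
    apply Subgroup.closure_mono
    rintro ⟨x, hx⟩ hx'
    rcases hx' with ⟨a, rfl⟩ | rfl | rfl
    · exact Or.inl ⟨a, rfl⟩
    · exact Or.inr (Or.inl rfl)
    · exact Or.inr (Or.inr rfl)
  · intro h g n hn hg
    apply Subtype.ext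
    exact tfree_P A h _ n hn (congrArg Subtype.val hg)

/-! ### the tower -/

section tower

/-- a group in the class `C` -/
structure Ob (C : ∀ (G : Type) [Group G], Prop) where
  carrier : Type
  grp : Group carrier
  mem : C carrier

attribute [instance] Ob.grp

variable {C : ∀ (G : Type) [Group G], Prop} (hC : ClosedE C)

include hC in
theorem exists_next (M : Ob C) : ∃ (N : Ob C) (f : M.carrier →* N.carrier) (s d : N.carrier),
    Function.Injective f ∧ (∀ a, d⁻¹ * f a * d = f a * (s⁻¹ * f a * s)) ∧
      (∀ a b, f a * (s⁻¹ * f b * s) = s⁻¹ * f b * s * f a) ∧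
      (Countable M.carrier → Countable N.carrier) ∧ (TFree M.carrier → TFree N.carrier) := by
  obtain ⟨P, _, f, s, d, h1, h2, h3, h4, h5, -, h6⟩ := step M.carrier C hC M.mem
  exact ⟨⟨P, inferInstance, h1⟩, f, s, d, h2, h3, h4, h5, h6⟩

/-- the tower of mitoses -/
noncomputable def tow (G : Ob C) : ℕ → Ob C
  | 0 => G
  | k + 1 => (exists_next hC (tow G k)).choose

/-- the groups of the tower -/
abbrev TT (G : Ob C) (k : ℕ) : Type := (tow hC G k).carrier

/-- one step of the tower -/
noncomputable def stp (G : Ob C) (k : ℕ) : TT hC G k →* TT hC G (k + 1) :=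
  (exists_next hC (tow hC G k)).choose_spec.choose

theorem stp_spec (G : Ob C) (k : ℕ) : ∃ (s d : TT hC G (k + 1)), Function.Injective (stp hC G k) ∧
    (∀ a, d⁻¹ * stp hC G k a * d = stp hC G k a * (s⁻¹ * stp hC G k a * s)) ∧
      (∀ a b, stp hC G k a * (s⁻¹ * stp hC G k b * s) = s⁻¹ * stp hC G k b * s * stp hC G k a) ∧
      (Countable (TT hC G k) → Countable (TT hC G (k + 1))) ∧
      (TFree (TT hC G k) → TFree (TT hC G (k + 1))) :=
  (exists_next hC (tow hC G k)).choose_spec.choose_spec

theorem stp_injective (G : Ob C) (k : ℕ) : Function.Injective (stp hC G k) := by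
  obtain ⟨_, _, h, _⟩ := stp_spec hC G k
  exact h

/-- the transition maps -/
noncomputable def tr (G : Ob C) (m n : ℕ) (h : m ≤ n) : TT hC G m →* TT hC G n :=
  Nat.leRecOn (C := fun n => TT hC G m →* TT hC G n) h (fun {k} g => (stp hC G k).comp g)
    (MonoidHom.id _)

theorem tr_self (G : Ob C) (m : ℕ) : tr hC G m m le_rfl = MonoidHom.id _ :=
  Nat.leRecOn_self _

theorem tr_succ (G : Ob C) (m n : ℕ) (h : m ≤ n) :
    tr hC G m (n + 1) (h.trans n.le_succ) = (stp hC G n).comp (tr hC G m n h) :=
  Nat.leRecOn_succ h _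

theorem tr_tr (G : Ob C) (i j k : ℕ) (h : i ≤ j) (h' : j ≤ k) (x : TT hC G i) :
    tr hC G j k h' (tr hC G i j h x) = tr hC G i k (h.trans h') x := by
  induction k, h' using Nat.le_induction with
  | base => rw [tr_self]; rfl
  | succ n hn ih =>
    rw [tr_succ hC G j n hn, tr_succ hC G i n (h.trans hn)]
    exact congrArg (stp hC G n) ih

theorem tr_injective (G : Ob C) (i j : ℕ) (h : i ≤ j) :
    Function.Injective (tr hC G i j h) := by
  induction j, h using Nat.le_induction with
  | base => rw [tr_self]; exact fun _ _ h => h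
  | succ n hn ih =>
    rw [tr_succ hC G i n hn]
    exact (stp_injective hC G n).comp ih

instance (G : Ob C) : DirectedSystem (TT hC G) (fun i j h => tr hC G i j h) where
  map_self i x := by rw [tr_self]; rfl
  map_map k j i h h' x := tr_tr hC G i j k h h' x

theorem countable_tow (G : Ob C) [Countable G.carrier] (k : ℕ) : Countable (TT hC G k) := by
  induction k with
  | zero => exact (inferInstance : Countable G.carrier)
  | succ k ih =>
    obtain ⟨_, _, _, _, _, h, _⟩ := stp_spec hC G k
    exact h ih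

theorem tfree_tow (G : Ob C) (hG : TFree G.carrier) (k : ℕ) : TFree (TT hC G k) := by
  induction k with
  | zero => exact hG
  | succ k ih =>
    obtain ⟨_, _, _, _, _, _, h⟩ := stp_spec hC G k
    exact h ih

theorem tfree_lim (G : Ob C) (hG : TFree G.carrier) :
    TFree (DirectLimit (TT hC G) (tr hC G)) := by
  intro g n hn h
  obtain ⟨k, x, rfl⟩ := ofLim_surj (tr hC G) g
  have hi : Function.Injective (ofLim (tr hC G) k) :=
    DirectLimit.mk_injective (f := tr hC G) (tr_injective hC G) k
  rw [← map_pow] at h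
  rw [tfree_tow hC G hG k x n hn (hi (h.trans (map_one _).symm)), map_one]

/-- elements of a finitely generated subgroup of the limit come from one stage -/
theorem fg_stage (G : Ob C) (K : Subgroup (DirectLimit (TT hC G) (tr hC G))) (hK : K.FG) :
    ∃ n, K ≤ (ofLim (tr hC G) n).range := by
  obtain ⟨S, rfl⟩ := hK
  have h : ∀ S : Finset (DirectLimit (TT hC G) (tr hC G)), ∃ n, ∀ x ∈ S,
      x ∈ (ofLim (tr hC G) n).range := by
    intro S
    classical
    induction S using Finset.induction_on with
    | empty => exact ⟨0, fun x hx => absurd hx (Finset.notMem_empty x)⟩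
    | insert a S _ ih =>
      obtain ⟨n, hn⟩ := ih
      obtain ⟨k, x, rfl⟩ := ofLim_surj (tr hC G) a
      refine ⟨max n k, fun y hy => ?_⟩
      rcases Finset.mem_insert.1 hy with rfl | hy
      · exact ⟨tr hC G k _ (le_max_right n k) x, ofLim_apply (tr hC G) _ _ _ _⟩
      · obtain ⟨z, rfl⟩ := hn y hy
        exact ⟨tr hC G n _ (le_max_left n k) z, ofLim_apply (tr hC G) _ _ _ _⟩
  obtain ⟨n, hn⟩ := h S
  exact ⟨n, (Subgroup.closure_le _).2 hn⟩

theorem mitotic (G : Ob C) : IsMitotic (DirectLimit (TT hC G) (tr hC G)) := by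
  intro K hK
  obtain ⟨n, hn⟩ := fg_stage hC G K hK
  obtain ⟨s, d, -, h1, h2, -, -⟩ := stp_spec hC G n
  have h3 : ∀ x : TT hC G n, ofLim (tr hC G) n x = ofLim (tr hC G) (n + 1) (stp hC G n x) := by
    intro x
    rw [← ofLim_apply (tr hC G) n (n + 1) n.le_succ x]
    congr 1
    have := tr_succ hC G n n le_rfl
    rw [tr_self] at this
    exact congrArg (fun f => f x) this
  refine ⟨ofLim (tr hC G) (n + 1) s, ofLim (tr hC G) (n + 1) d, fun g hg => ?_⟩
  obtain ⟨x, rfl⟩ := hn hg
  refine ⟨?_, fun g' hg' => ?_⟩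
  · rw [h3]
    simp only [← map_inv, ← map_mul]
    rw [h1]
  · obtain ⟨y, rfl⟩ := hn hg'
    rw [h3, h3]
    simp only [← map_inv, ← map_mul]
    rw [h2]

end tower

end Mit

/-- every group in `C` embeds in a mitotic group in `C`, which is countable if the group is -/
theorem mit_ (C : ∀ (G : Type) [Group G], Prop) (hC : ClosedE C) (G : Type) [Group G] (hG : C G) :
    ∃ (H : Type) (_ : Group H) (f : G →* H), Function.Injective f ∧ C H ∧ IsMitotic H ∧
      (Countable G → Countable H) ∧ (TFree G → TFree H) := by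
  let G₀ : Mit.Ob C := ⟨G, inferInstance, hG⟩
  refine ⟨DirectLimit (Mit.TT hC G₀) (Mit.tr hC G₀), inferInstance, ofLim (Mit.tr hC G₀) 0, ?_, ?_,
    Mit.mitotic hC G₀, ?_, fun h => Mit.tfree_lim hC G₀ h⟩
  · exact DirectLimit.mk_injective (f := Mit.tr hC G₀) (Mit.tr_injective hC G₀) 0
  · exact C_lim (Mit.tr hC G₀) hC.base (fun k => (Mit.tow hC G₀ k).mem)
  · intro hG'
    have h1 : Countable G₀.carrier := hG'
    have : ∀ k, Countable (Mit.TT hC G₀ k) := Mit.countable_tow hC G₀
    exact inferInstance

end Pool.Agent.Y110.FJ
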