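import Pool.Agent.Y110.FJ.Stm
import Pool.Agent.Y110.KW.Par

/-!
# Local quotients of free products and embeddings in two-generator groups: statements

Owner helper110.
-/

set_option autoImplicit false

namespace Pool.Agent.Y110.FJ

open Pool.Agent.Y110.KW

/-- the amalgamated decomposition inside the image of a retraction -/
def S_AMR : Prop := ∀ (V : Type) (P : V → Type) [∀ v, Group (P v)] (R : Set (Monoid.CoprodI P))
  (hR : IsLocal R) (S : Set V) (u v : V), u ∈ S → v ∈ S → u ≠ v → ¬ Linked R u v →
  Amg ((ret hR (S \ {u})).range.subgroupOf (ret hR S).range)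
    ((ret hR (S \ {v})).range.subgroupOf (ret hR S).range)
    ((ret hR (S \ {u, v})).range.subgroupOf (ret hR S).range)

/-- **local quotients of free products** -/
def S_LOC : Prop := ∀ C : ∀ (G : Type) [Group G], Prop, ClosedE C →
  ∀ (V : Type) (P : V → Type) [∀ v, Group (P v)] (R : Set (Monoid.CoprodI P)), IsLocal R →
    (∀ σ : Finset V, IsCl R σ → C ↥(para R (σ : Set V))) → C (Quo R)

/-- **embeddings in groups with two generators** -/
def S_TWO : Prop := ∀ C : ∀ (G : Type) [Group G], Prop, ClosedE C →
  (∀ (G : Type) [Group G], Group.IsSolvable G → C G) →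
  ∀ (G : Type) [Group G], Countable G → C G →
    ∃ (H : Type) (_ : Group H) (f : G →* H) (a b : H), Function.Injective f ∧
      Subgroup.closure {a, b} = ⊤ ∧ C H

end Pool.Agent.Y110.FJ
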