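import Pool.Agent.Y110.FJ.Stm
import Pool.Agent.Y70.FJ.TwoB

/-!
# Groups of locally constant functions: statements

Owner helper110.
-/

set_option autoImplicit false

namespace Pool.Agent.Y110.FJ

open Pool.Agent.Y462.SS (Closed)
open Pool.Agent.Y70.FJ (U N0)

/-- `𝔅` is an algebra of subsets of `X` -/
structure IsAlg {X : Type} (𝔅 : Set (Set X)) : Prop where
  empty : ∅ ∈ 𝔅
  compl : ∀ S ∈ 𝔅, Sᶜ ∈ 𝔅
  union : ∀ S ∈ 𝔅, ∀ T ∈ 𝔅, S ∪ T ∈ 𝔅

theorem IsAlg.inter {X : Type} {𝔅 : Set (Set X)} (h : IsAlg 𝔅) {S T : Set X} (hS : S ∈ 𝔅) (hT : T ∈ 𝔅) :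
    S ∩ T ∈ 𝔅 := by
  have h1 := h.compl _ (h.union _ (h.compl _ hS) _ (h.compl _ hT))
  rwa [Set.compl_union, compl_compl, compl_compl] at h1

theorem IsAlg.biUnion {X ι : Type} {𝔅 : Set (Set X)} (h : IsAlg 𝔅) {I : Set ι} (hI : I.Finite)
    (f : ι → Set X) (hf : ∀ i ∈ I, f i ∈ 𝔅) : (⋃ i ∈ I, f i) ∈ 𝔅 := by
  induction I, hI using Set.Finite.induction_on with
  | empty => simpa using h.empty
  | @insert a s _ _ ih =>
    rw [Set.biUnion_insert]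
    exact h.union _ (hf a (Set.mem_insert _ _)) _ (ih fun i hi => hf i (Set.mem_insert_of_mem _ hi))

/-- a function with finitely many values and fibres in the algebra has all its preimages in it -/
theorem IsAlg.preimage {X A : Type} {𝔅 : Set (Set X)} (h : IsAlg 𝔅) {f : X → A}
    (hf : (Set.range f).Finite) (hf' : ∀ a, f ⁻¹' {a} ∈ 𝔅) (S : Set A) : f ⁻¹' S ∈ 𝔅 := by
  have h1 : f ⁻¹' S = ⋃ a ∈ (S ∩ Set.range f), f ⁻¹' {a} := by
    ext x
    simp only [Set.mem_preimage, Set.mem_iUnion, Set.mem_singleton_iff]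
    exact ⟨fun hx => ⟨f x, ⟨hx, x, rfl⟩, rfl⟩, fun ⟨a, ha, hxa⟩ => hxa ▸ ha.1⟩
  rw [h1]
  exact h.biUnion (hf.subset Set.inter_subset_right) _ fun a _ => hf' a

/-- the group of functions with finitely many values whose fibres are in the algebra `𝔅` -/
def Simp {X : Type} {𝔅 : Set (Set X)} (h𝔅 : IsAlg 𝔅) (A : Type) [Group A] : Subgroup (X → A) where
  carrier := {f | (Set.range f).Finite ∧ ∀ a, f ⁻¹' {a} ∈ 𝔅}
  mul_mem' := by
    rintro f g ⟨hf, hf'⟩ ⟨hg, hg'⟩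
    refine ⟨(Set.Finite.image2 (· * ·) hf hg).subset ?_, ?_⟩
    · rintro _ ⟨x, rfl⟩
      exact ⟨f x, ⟨x, rfl⟩, g x, ⟨x, rfl⟩, rfl⟩
    · intro a
      have h1 : (f * g) ⁻¹' {a} = ⋃ b ∈ Set.range f, f ⁻¹' {b} ∩ g ⁻¹' {b⁻¹ * a} := by
        ext x
        simp only [Set.mem_preimage, Set.mem_iUnion, Set.mem_singleton_iff, Set.mem_inter_iff,
          Pi.mul_apply, Set.mem_range]
        constructor
        · rintro rfl
          exact ⟨f x, ⟨x, rfl⟩, rfl, by group⟩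
        · rintro ⟨b, _, rfl, h2⟩
          rw [h2]
          group
      rw [h1]
      exact h𝔅.biUnion hf _ fun b _ => h𝔅.inter (hf' b) (hg' _)
  one_mem' := by
    refine ⟨(Set.finite_singleton (1 : A)).subset (by rintro _ ⟨x, rfl⟩; rfl), ?_⟩
    intro a
    by_cases h : (1 : A) = a
    · have h1 : (1 : X → A) ⁻¹' {a} = (∅ : Set X)ᶜ := by
        ext x
        simp [h]
      rw [h1]
      exact h𝔅.compl _ h𝔅.empty
    · have h1 : (1 : X → A) ⁻¹' {a} = (∅ : Set X) := by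
        ext x
        simp [h]
      rw [h1]
      exact h𝔅.empty
  inv_mem' := by
    rintro f ⟨hf, hf'⟩
    refine ⟨(hf.image (·⁻¹)).subset ?_, ?_⟩
    · rintro _ ⟨x, rfl⟩
      exact ⟨f x, ⟨x, rfl⟩, rfl⟩
    · intro a
      have h1 : (f⁻¹) ⁻¹' {a} = f ⁻¹' {a⁻¹} := by
        ext x
        simp [inv_eq_iff_eq_inv]
      rw [h1]
      exact hf' _

/-- **groups of locally constant functions**: if `Q` acts on the set `X` and on the algebra `𝔅` of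
subsets, the group of functions `X → A` with finitely many values and fibres in `𝔅`, extended by `Q`,
is in `C` -/
def S_SIMP : Prop := ∀ C : ∀ (G : Type) [Group G], Prop, ClosedE C →
  ∀ (X Q A : Type) [Group Q] [Group A] [MulAction Q X] (𝔅 : Set (Set X)) (h𝔅 : IsAlg 𝔅)
    (α : Q →* MulAut (Simp h𝔅 A)), (∀ (q : Q), ∀ S ∈ 𝔅, (fun x => q • x) ⁻¹' S ∈ 𝔅) →
    (∀ (q : Q) (f : Simp h𝔅 A) (x : X), ((α q f : Simp h𝔅 A) : X → A) x = (f : X → A) (q⁻¹ • x)) →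
    C A → C Q → C (Simp h𝔅 A ⋊[α] Q)

/-- the twisted form: `Q` acts on `X` and on `A`; for nonempty `X` the extension of the group of locally
constant functions `X → A` by `Q` is in `C` if and only if `A ⋊ Q` is -/
def S_SIMPT : Prop := ∀ C : ∀ (G : Type) [Group G], Prop, ClosedE C →
  ∀ (X Q A : Type) [Nonempty X] [Group Q] [Group A] [MulAction Q X] (𝔅 : Set (Set X)) (h𝔅 : IsAlg 𝔅)
    (θ : Q →* MulAut A) (α : Q →* MulAut (Simp h𝔅 A)), (∀ (q : Q), ∀ S ∈ 𝔅, (fun x => q • x) ⁻¹' S ∈ 𝔅) →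
    (∀ (q : Q) (f : Simp h𝔅 A) (x : X),
      ((α q f : Simp h𝔅 A) : X → A) x = θ q ((f : X → A) (q⁻¹ • x))) →
    (C (Simp h𝔅 A ⋊[α] Q) ↔ C (A ⋊[θ] Q))

/-- the subgroup of the elements of `(ℤ → Γ) ⋊ ℤ` whose function is periodic with period `m` -/
def S_PP : Prop := ∀ C : ∀ (G : Type) [Group G], Prop, ClosedE C → ∀ (Γ : Type) [Group Γ] (m : ℕ),
  0 < m → C Γ → ∀ K : Subgroup (U Γ), (∀ x ∈ K, ∀ n : ℤ, x.f (n + m) = x.f n) → C K

/-- the subgroups of the elements of `(ℤ → Γ) ⋊ ℤ` whose function is periodic with period `m` near both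
ends of `ℤ` -/
def S_EPK : Prop := ∀ C : ∀ (G : Type) [Group G], Prop, ClosedE C → ∀ (Γ : Type) [Group Γ] (m : ℕ),
  0 < m → C Γ → ∀ K : Subgroup (U Γ),
    (∀ x ∈ K, ∃ b : ℤ, ∀ n : ℤ, b ≤ n → x.f (n + m) = x.f n ∧ x.f (-n - m) = x.f (-n)) → C K

end Pool.Agent.Y110.FJ
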