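import Pool.Agent.Y110.FJ.Stm4

/-!
# Amalgamated products, HNN extensions and embeddings: statements

Owner helper110.
-/

set_option autoImplicit false

namespace Pool.Agent.Y110.FJ

open Pool.Agent.Y462.SS (Closed)

/-- **amalgamated products over a retract of one factor**: `G` is the amalgamated product of `A` and
`B` over `K`, and `ρ` is a retraction of `B` onto `K` -/
def S_RET : Prop := ∀ C : ∀ (G : Type) [Group G], Prop, ClosedE C →
  ∀ (G : Type) [Group G] (A B K : Subgroup G) (h : Amg A B K) (ρ : B →* K),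
    (∀ (c : G) (hc : c ∈ K), ρ ⟨c, h.le_right hc⟩ = ⟨c, hc⟩) →
    (C G ↔ C A ∧ ∀ a ∈ K, C ↥((ρ.ker.map B.subtype) ⊔ Subgroup.zpowers a))

/-- a finite piece of an amalgamated product is realized in `C` -/
def AmgPiece (C : ∀ (G : Type) [Group G], Prop) {G : Type} [Group G] (E F D : Set G) : Prop :=
  ∃ (P : Type) (_ : Group P) (f : ↥(Subgroup.closure (E ∪ D)) →* P)
    (g : ↥(Subgroup.closure (F ∪ D)) →* P), C P ∧ Function.Injective f ∧ Function.Injective g ∧
    ∀ (x : ↥(Subgroup.closure (E ∪ D))) (y : ↥(Subgroup.closure (F ∪ D))),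
      (x : G) ∈ D → (x : G) = y → f x = g y

/-- **the local criterion for amalgamated products** -/
def S_AMC : Prop := ∀ C : ∀ (G : Type) [Group G], Prop, ClosedE C →
  ∀ (G : Type) [Group G] (A B K : Subgroup G), Amg A B K →
    (C G ↔ ∀ E F D : Set G, E.Finite → F.Finite → D.Finite → E ⊆ A → F ⊆ B → D ⊆ K →
      AmgPiece C E F D)

/-- a finite piece of an HNN extension is realized in `C` -/
def HnnPiece (C : ∀ (G : Type) [Group G], Prop) {M : Type} [Group M] {A B : Subgroup M} (φ : A ≃* B)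
    (E D : Set M) : Prop :=
  ∃ (P : Type) (_ : Group P)
    (f : ↥(Subgroup.closure (E ∪ {y | ∃ a : A, (a : M) ∈ D ∧ (y = a ∨ y = φ a)})) →* P) (p : P),
    C P ∧ Function.Injective f ∧
    ∀ (x y : ↥(Subgroup.closure (E ∪ {y | ∃ a : A, (a : M) ∈ D ∧ (y = a ∨ y = φ a)}))) (a : A),
      (a : M) ∈ D → (x : M) = a → (y : M) = φ a → f y = p * f x * p⁻¹

/-- **the local criterion for HNN extensions** -/
def S_HNC : Prop := ∀ C : ∀ (G : Type) [Group G], Prop, ClosedE C →
  ∀ (M : Type) [Group M] (A B : Subgroup M) (φ : A ≃* B),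
    (C (HNNExtension M A B φ) ↔ ∀ E D : Set M, E.Finite → D.Finite → D ⊆ A → HnnPiece C φ E D)

/-- every group in `C` embeds in a divisible group in `C`, which is countable if the group is -/
def S_DIV : Prop := ∀ C : ∀ (G : Type) [Group G], Prop, Closed C →
  ∀ (G : Type) [Group G], C G → ∃ (H : Type) (_ : Group H) (f : G →* H), Function.Injective f ∧
    C H ∧ (∀ (h : H) (n : ℕ), 0 < n → ∃ x : H, x ^ n = h) ∧ (Countable G → Countable H)

end Pool.Agent.Y110.FJ
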