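import Pool.Agent.Y110.FJ.Gwp
import Pool.Agent.Y110.FJ.Stm4
import Pool.Agent.Y50.FJ.Gp
import Pool.Agent.Y430.SS.Lf

/-!
Extensions of graph products whose vertex groups are permuted.
-/

set_option autoImplicit false

namespace Pool.Agent.Y110.FJ

open Pool.Agent.Y462.SS (Closed)
open Pool.Agent.Y261.FJ

/-- cyclic subgroups are in `C` -/
theorem c_zpowers {C : ∀ (G : Type) [Group G], Prop} (hC : Closed C) {G : Type} [Group G] (q : G) :
    C ↥(Subgroup.zpowers q) := by
  by_cases h : Function.Injective (zpowersHom G q)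
  · have h1 : (zpowersHom G q).range = Subgroup.zpowers q := by
      ext x
      constructor
      · rintro ⟨n, rfl⟩
        exact ⟨Multiplicative.toAdd n, rfl⟩
      · rintro ⟨n, rfl⟩
        exact ⟨Multiplicative.ofAdd n, rfl⟩
    have h2 : C ↥(zpowersHom G q).range :=
      hC.of_injective _ _ (MonoidHom.ofInjective h).symm.toMonoidHom
        (MonoidHom.ofInjective h).symm.injective hC.int
    rw [h1] at h2
    exact h2
  · have h1 : IsOfFinOrder q := by
      rw [injective_iff_map_eq_one] at h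
      push Not at h
      obtain ⟨n, hn, hn0⟩ := h
      rw [isOfFinOrder_iff_zpow_eq_one]
      refine ⟨Multiplicative.toAdd n, ?_, hn⟩
      intro h0
      exact hn0 (Multiplicative.toAdd.injective h0)
    have : Finite ↥(Subgroup.zpowers q) := h1.finite_zpowers
    exact Pool.Agent.Y430.SS.of_finite hC _ this

/-- multiplication of the conjugating element by an element of the kernel -/
theorem realized_mul {C : ∀ (G : Type) [Group G], Prop} {G : Type} [Group G] {N : Subgroup G}
    [N.Normal] {q n : G} (hn : n ∈ N)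
    (h : ∀ E : Set G, E.Finite → E ⊆ N → Realized C q E) (E : Set G) (hE : E.Finite)
    (hEN : E ⊆ N) : Realized C (n * q) E := by
  have hn' : q⁻¹ * n * q ∈ N := by
    have := (inferInstance : N.Normal).conj_mem n hn q⁻¹
    rwa [inv_inv] at this
  let K' : Subgroup G := Subgroup.closure ((E ∪ {q⁻¹ * n * q}) ∪
    (fun x => q * x * q⁻¹) '' (E ∪ {q⁻¹ * n * q}))
  obtain ⟨P, _, f, p, hP, hf, hfp⟩ : ∃ (P : Type) (_ : Group P) (f : ↥K' →* P) (p : P),
      C P ∧ Function.Injective f ∧ ∀ x y : ↥K', (x : G) ∈ E ∪ {q⁻¹ * n * q} →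
        (y : G) = q * x * q⁻¹ → f y = p * f x * p⁻¹ :=
    h (E ∪ {q⁻¹ * n * q}) (hE.union (Set.finite_singleton _))
      (by rintro x (hx | rfl); exacts [hEN hx, hn'])
  have hnK : n ∈ K' := by
    apply Subgroup.subset_closure
    right
    exact ⟨q⁻¹ * n * q, Or.inr rfl, by group⟩
  have hxK : ∀ x ∈ E, x ∈ K' := fun x hx => Subgroup.subset_closure (Or.inl (Or.inl hx))
  have hqK : ∀ x ∈ E, q * x * q⁻¹ ∈ K' := fun x hx =>
    Subgroup.subset_closure (Or.inr ⟨x, Or.inl hx, rfl⟩)
  have hle : Subgroup.closure (E ∪ (fun x => n * q * x * (n * q)⁻¹) '' E) ≤ K' := by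
    rw [Subgroup.closure_le]
    rintro x (hx | ⟨x, hx, rfl⟩)
    · exact hxK x hx
    · have h1 : n * q * x * (n * q)⁻¹ = n * (q * x * q⁻¹) * n⁻¹ := by group
      show n * q * x * (n * q)⁻¹ ∈ K'
      rw [h1]
      exact K'.mul_mem (K'.mul_mem hnK (hqK x hx)) (K'.inv_mem hnK)
  refine ⟨P, inferInstance, f.comp (Subgroup.inclusion hle), f ⟨n, hnK⟩ * p, hP,
    hf.comp (Subgroup.inclusion_injective hle), ?_⟩
  intro x y hx hy
  have h1 := hfp ⟨x, hxK x hx⟩ ⟨q * x * q⁻¹, hqK x hx⟩ (Or.inl hx) rfl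
  have h2 : Subgroup.inclusion hle y =
      (⟨n, hnK⟩ : K') * ⟨q * x * q⁻¹, hqK x hx⟩ * (⟨n, hnK⟩ : K')⁻¹ := by
    apply Subtype.ext
    show (y : G) = n * (q * x * q⁻¹) * n⁻¹
    rw [hy]
    group
  have h3 : (Subgroup.inclusion hle x) = (⟨x, hxK x hx⟩ : K') := rfl
  rw [MonoidHom.comp_apply, MonoidHom.comp_apply, h2, h3, map_mul, map_mul, map_inv, h1]
  group

/-! ### orbits of one element -/

section orbit

variable {V Q : Type} [Group Q] [MulAction Q V]

/-- the orbit of `v` under `q` is finite -/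
def FO (q : Q) (v : V) : Prop := ∃ k : ℕ, 0 < k ∧ q ^ k • v = v

theorem FO.smul {q : Q} {v : V} (h : FO q v) : FO q (q • v) := by
  obtain ⟨k, hk, h⟩ := h
  refine ⟨k, hk, ?_⟩
  rw [← mul_smul, (Commute.pow_self q k).eq, mul_smul, h]

theorem FO.of_smul {q : Q} {v : V} (h : FO q (q • v)) : FO q v := by
  obtain ⟨k, hk, h⟩ := h
  refine ⟨k, hk, ?_⟩
  rw [← mul_smul, (Commute.pow_self q k).eq, mul_smul] at h
  exact MulAction.injective q h

theorem FO_zpow {q : Q} {v : V} {n : ℤ} (hn : n ≠ 0) (h : q ^ n • v = v) : FO q v := by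
  refine ⟨n.natAbs, Int.natAbs_pos.2 hn, ?_⟩
  rcases Int.natAbs_eq n with h1 | h1
  · rw [h1, zpow_natCast] at h
    exact h
  · rw [h1, zpow_neg, zpow_natCast] at h
    have := congrArg (fun w => q ^ n.natAbs • w) h
    simp only [smul_inv_smul] at this
    exact this.symm

/-- coordinates on the infinite orbits -/
theorem exists_coord (q : Q) : ∃ (r : V → V) (n : V → ℤ), (∀ v, q ^ (n v) • r v = v) ∧
    (∀ v, r (q • v) = r v) ∧ ∀ v, ¬ FO q v → n (q • v) = n v + 1 := by
  classical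
  let s : Setoid V := MulAction.orbitRel (Subgroup.zpowers q) V
  have h1 : ∀ v : V, ∃ n : ℤ, q ^ n • (Quotient.mk s v).out = v := by
    intro v
    have h2 : s v (Quotient.mk s v).out := s.symm (Quotient.mk_out v)
    have h3 : v ∈ MulAction.orbit (Subgroup.zpowers q) (Quotient.mk s v).out := h2
    obtain ⟨⟨_, n, rfl⟩, h4⟩ := h3
    exact ⟨n, h4⟩
  choose n hn using h1
  have hr : ∀ v : V, (Quotient.mk s (q • v)).out = (Quotient.mk s v).out := by
    intro v
    congr 1
    apply Quotient.sound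
    show q • v ∈ MulAction.orbit (Subgroup.zpowers q) v
    exact ⟨⟨q, Subgroup.mem_zpowers q⟩, rfl⟩
  refine ⟨fun v => (Quotient.mk s v).out, n, hn, hr, ?_⟩
  intro v hv
  by_contra hne
  apply hv
  have h2 := hn (q • v)
  rw [hr v] at h2
  have h3 : q ^ (n v + 1) • (Quotient.mk s v).out = q • v := by
    rw [zpow_add_one, (Commute.zpow_self q (n v)).eq, mul_smul, hn v]
  have h4 : q ^ (n (q • v) - (n v + 1)) • (q • v) = q • v :=
    calc q ^ (n (q • v) - (n v + 1)) • (q • v)
        = q ^ (n (q • v) - (n v + 1)) • (q ^ (n v + 1) • (Quotient.mk s v).out) := by rw [h3]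
      _ = q ^ (n (q • v)) • (Quotient.mk s v).out := by
        rw [← mul_smul, ← zpow_add, sub_add_cancel]
      _ = q • v := h2
  exact FO.of_smul (FO_zpow (sub_ne_zero.2 hne) h4)

/-- a finite set of vertices can be completed by its finite orbits -/
theorem exists_complete (q : Q) (S : Set V) (hS : S.Finite) : ∃ S' : Set V, S'.Finite ∧ S ⊆ S' ∧
    ∀ v ∈ S', FO q v → q • v ∈ S' := by
  classical
  refine ⟨S ∪ {w | ∃ v ∈ S, FO q v ∧ ∃ i : ℕ, w = q ^ i • v}, ?_, Set.subset_union_left, ?_⟩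
  · apply hS.union
    have h1 : {w | ∃ v ∈ S, FO q v ∧ ∃ i : ℕ, w = q ^ i • v} =
        ⋃ v ∈ S, {w | FO q v ∧ ∃ i : ℕ, w = q ^ i • v} := by
      ext w
      simp only [Set.mem_ofPred_eq, Set.mem_iUnion, exists_prop]
    rw [h1]
    refine hS.biUnion fun v _ => ?_
    by_cases hv : FO q v
    · obtain ⟨k, hk, hkv⟩ := hv
      refine (((Finset.range k).finite_toSet).image (fun i => q ^ i • v)).subset ?_
      rintro w ⟨-, i, rfl⟩
      refine ⟨i % k, by simpa using Nat.mod_lt i hk, ?_⟩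
      have h2 : ∀ j : ℕ, (q ^ k) ^ j • v = v := by
        intro j
        induction j with
        | zero => simp
        | succ j ih => rw [pow_succ, mul_smul, hkv, ih]
      show q ^ (i % k) • v = q ^ i • v
      conv_rhs => rw [← Nat.mod_add_div i k, pow_add, pow_mul, mul_smul, h2]
    · refine Set.finite_empty.subset ?_
      rintro w ⟨h, -⟩
      exact hv h
  · rintro v (hv | ⟨u, hu, huf, i, rfl⟩) hf
    · exact Or.inr ⟨v, hv, hf, 1, by rw [pow_one]⟩
    · exact Or.inr ⟨u, hu, huf, i + 1, by rw [pow_succ', mul_smul]⟩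

end orbit

end Pool.Agent.Y110.FJ
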