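import Pool.Agent.Y110.FJ.All4

/-!
Extensions of graph products: the equivalence.
-/

set_option autoImplicit false

namespace Pool.Agent.Y110.FJ

theorem c_quotient_of_compl {C : ∀ (G : Type) [Group G], Prop} (hC : ClosedE C) {G : Type} [Group G]
    (N Q : Subgroup G) [N.Normal] (h1 : N ⊔ Q = ⊤) (h2 : N ⊓ Q = ⊥) (hQ : C Q) : C (G ⧸ N) := by
  have hb : Function.Bijective ((QuotientGroup.mk' N).comp Q.subtype) := by
    constructor
    · rw [injective_iff_map_eq_one]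
      intro x hx
      have h3 : (x : G) ∈ N := (QuotientGroup.eq_one_iff _).1 hx
      have h4 : (x : G) ∈ N ⊓ Q := ⟨h3, x.2⟩
      rw [h2, Subgroup.mem_bot] at h4
      exact Subtype.ext h4
    · intro y
      obtain ⟨g, rfl⟩ := QuotientGroup.mk'_surjective N y
      have hg : g ∈ ((N ⊔ Q : Subgroup G) : Set G) := by rw [h1]; exact Subgroup.mem_top g
      rw [Subgroup.normal_mul] at hg
      obtain ⟨m, hm, q, hq, rfl⟩ := hg
      refine ⟨⟨q, hq⟩, ?_⟩
      show QuotientGroup.mk' N q = QuotientGroup.mk' N (m * q)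
      rw [map_mul, (QuotientGroup.eq_one_iff m).2 hm |> (fun h => (h : QuotientGroup.mk' N m = 1)),
        one_mul]
  exact hC.base.of_injective _ _ (MulEquiv.ofBijective _ hb).symm.toMonoidHom
    (MulEquiv.ofBijective _ hb).symm.injective hQ

theorem tgp_iff (C : ∀ (G : Type) [Group G], Prop) (hC : ClosedE C) (G V : Type) [Group G]
    (N Q : Subgroup G) [N.Normal] [MulAction Q V] (Λ : SimpleGraph V) (A : V → Subgroup G)
    (hN : IsGP Λ A N) (hNQ : N ⊔ Q = ⊤)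
    (hadj : ∀ (q : Q) (v w : V), Λ.Adj v w → Λ.Adj (q • v) (q • w))
    (hA : ∀ (q : Q) (v : V), A (q • v) = (A v).map (MulAut.conj (q : G)).toMonoidHom) :
    (C (G ⧸ N) → (C G ↔ ∀ (v : V) (q : Q), q • v = v → C ↥(A v ⊔ Subgroup.zpowers (q : G)))) ∧
    (N ⊓ Q = ⊥ →
      (C G ↔ C Q ∧ ∀ (v : V) (q : Q), q • v = v → C ↥(A v ⊔ Subgroup.zpowers (q : G)))) := by
  have h1 : C G → ∀ (v : V) (q : Q), q • v = v → C ↥(A v ⊔ Subgroup.zpowers (q : G)) :=
    fun h v q _ => hC.base.of_injective _ _ (Subgroup.subtype _) (Subgroup.subtype_injective _) h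
  refine ⟨fun hQ => ⟨h1, fun h => tgp_ C hC G V N Q Λ A hN hNQ hadj hA hQ h⟩, fun hint => ⟨fun h =>
    ⟨hC.base.of_injective _ _ (Subgroup.subtype _) (Subgroup.subtype_injective _) h, h1 h⟩, ?_⟩⟩
  rintro ⟨hQ, h⟩
  exact tgp_ C hC G V N Q Λ A hN hNQ hadj hA (c_quotient_of_compl hC N Q hNQ hint hQ) h

end Pool.Agent.Y110.FJ
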